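import Pool.Agent.H.MP_c00610_co.W

set_option linter.unusedSectionVars false

namespace Pool.Agent.H.MP_c00610_co
open Finset Pool.Agent.H.MP_e84969_co

variable {V : Type} [Fintype V] [DecidableEq V]

def PK (k c : ℕ) (O : Ob V) : Prop := ∃ S : Finset V, S.card = k ∧ ∃ Q : V → Finset V,
  (∀ v ∈ S, (Q v).card ≤ 503 ∧ (∀ u ∈ Q v, adj O v u ∧ u ∉ S) ∧
    124 * Fintype.card V ≤ 250 * (nbr O (Q v)).card) ∧ (∀ z, ∃ v ∈ S, ¬ adj O v z) ∧
  c * Fintype.card V ≤ 100 * (univ.filter (fun z => ∀ v ∈ S, z ∈ nbr O (Q v))).card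

lemma card_le_sub (S A : Finset V) (B : Finset {v // v ∉ S}) (h : ∀ z : {v // v ∉ S}, z.1 ∈ A → z ∈ B) :
    A.card ≤ B.card + S.card := by
  have : A ⊆ B.map (Function.Embedding.subtype _) ∪ S := by
    intro u hu
    by_cases hs : u ∈ S
    · simp [hs]
    · exact mem_union_left _ (mem_map.2 ⟨⟨u, hs⟩, h _ hu, rfl⟩)
  exact (card_le_card this).trans ((card_union_le _ _).trans (by simp))

lemma pz {T : Type} [Fintype T] [DecidableEq T] (α β δ : ℝ) (hk : 1 ≤ Fintype.card T)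
    (h0 : (2 : ℝ) ^ Fintype.card T - 1 ≤ 2 ^ α)
    (h1 : ∀ a : ℕ, 1 ≤ a → a ≤ Fintype.card T → (Fintype.card T : ℝ) - a ≤
      α - β * a - if a = Fintype.card T then δ else 0) (p : T → Prop) [DecidablePred p] :
    cnt (fun φ : T → Bool => (∀ v, p v → φ v = false) ∧ ∃ v, φ v = false) ≤
      2 ^ (α - (∑ v, if p v then β else 0) - if ∀ v, p v then δ else 0) := by
  have e1 : (∑ v, if p v then β else 0) = β * (univ.filter p).card := by
    rw [← sum_filter]; simp [mul_comm]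
  have e2 : (∀ v, p v) ↔ (univ.filter p).card = Fintype.card T := by
    rw [← card_univ, card_filter_eq_iff]; simp
  simp only [e1, e2]
  rcases Nat.eq_zero_or_pos (univ.filter p).card with h | h
  · rw [h, if_neg (by omega)]
    simp only [Nat.cast_zero, mul_zero, sub_zero]
    refine le_trans ?_ h0
    rw [cnt_eq_card]
    have : (univ.filter (fun φ : T → Bool => (∀ v, p v → φ v = false) ∧ ∃ v, φ v = false)).card ≤
        (univ.erase (fun _ : T => true)).card := by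
      refine card_le_card (fun φ hφ => ?_)
      simp only [mem_filter, mem_univ, true_and, mem_erase, and_true] at hφ ⊢
      rintro rfl
      simp at hφ
    rw [card_erase_of_mem (mem_univ _), card_univ, Fintype.card_fun, Fintype.card_bool] at this
    have h2 : 1 ≤ 2 ^ Fintype.card T := Nat.one_le_two_pow
    have h3 := (Nat.cast_le (α := ℝ)).2 this
    rw [Nat.cast_sub h2] at h3
    exact_mod_cast h3
  · refine (cnt_mono (fun φ h => h.1)).trans ((cnt_w (fun v b => p v → b = false)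
      (fun v => 1 - if p v then 1 else 0) (fun v => ?_)).trans
      (Real.rpow_le_rpow_of_exponent_le (by norm_num) ?_))
    · split_ifs with hv
      · simp [cnt_eq_card, hv, filter_eq']
      · simpa using cnt_le_card (fun b : Bool => p v → b = false)
    · refine le_trans (le_of_eq ?_) (h1 _ h (card_le_univ _))
      rw [sum_sub_distrib, ← sum_filter]; simp

lemma clK (k c : ℕ) (α β δ : ℝ) (hk1 : 1 ≤ k) (hk : k ≤ 3) (hα : 0 ≤ α) (hβ : 0 ≤ β) (hδ : 0 ≤ δ)
    (hβ' : β ≤ 1) (hδ' : δ ≤ 1) (h0 : (2 : ℝ) ^ k - 1 ≤ 2 ^ α)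
    (h1 : ∀ a : ℕ, 1 ≤ a → a ≤ k → (k : ℝ) - a ≤ α - β * a - if a = k then δ else 0)
    (h2 : α - β * k * (124 / 250) - δ * (c / 100) ≤ k / 2 - 1 / 100)
    (hn : 20000 ≤ Fintype.card V) :
    cnt (fun O : Ob V => (Ok O ∧ MinD O) ∧ PK k c O) ≤ HH k (Fintype.card V) := by
  set n := Fintype.card V with hn'
  set X : ℝ := α * n - β * (k * (124 / 250 * n - k)) - δ * (c / 100 * n - k) with hX
  refine (cnt_union (fun S : Finset V => S.card = k) (fun S O => (Ok O ∧ MinD O) ∧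
    ∃ Q : V → Finset V, (∀ v ∈ S, (Q v).card ≤ 503 ∧ (∀ u ∈ Q v, adj O v u ∧ u ∉ S) ∧
    124 * n ≤ 250 * (nbr O (Q v)).card) ∧ (∀ z, ∃ v ∈ S, ¬ adj O v z) ∧
    c * n ≤ 100 * (univ.filter (fun z => ∀ v ∈ S, z ∈ nbr O (Q v))).card)
    (G (n - k) * (((n + 1) ^ 503) ^ k * 2 ^ X * 2 ^ (k * (33 + k))))
    (fun O ⟨h, S, h1, h2⟩ => ⟨S, h1, h, h2⟩) (fun S hS => ?_)).trans ?_
  swap
  · have k3 : (k : ℝ) ≤ 3 := by exact_mod_cast hk
    have k0 : (0 : ℝ) ≤ k := by positivity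
    have n0 : (0 : ℝ) ≤ n := by positivity
    refine le_trans ?_ (le_HH (k := k + 503 * k) (x := X + (k * (33 + k) : ℕ)) (by omega) ?_)
    · refine (mul_le_mul_of_nonneg_right ((cnt_mono (fun Q hQ => hQ.le)).trans
        (small_sets k)) (mul_nonneg (G_nonneg _) (by positivity))).trans (le_of_eq ?_)
      rw [Real.rpow_add (by norm_num), Real.rpow_natCast, ← pow_mul, pow_add]; ring
    · have a1 := mul_le_mul_of_nonneg_right h2 n0
      have a2 : k * k ≤ (9 : ℝ) := by nlinarith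
      have a3 : β * (k * k) ≤ 9 := by nlinarith
      have a4 : δ * k ≤ 3 := by nlinarith
      push_cast; rw [hX]; nlinarith
  refine (rem S (by omega) (by omega) _ (fun O h => h.1) (((n + 1) ^ 503) ^ k * 2 ^ X)
    (fun ρ => ?_)).trans (by
      rw [hS]; exact mul_le_mul_of_nonneg_right (hS ▸ res_le_G S) (by positivity))
  have cS : Fintype.card {v // v ∈ S} = k := by simpa using hS
  have cW : (Fintype.card {v // v ∉ S} : ℝ) ≤ n := by exact_mod_cast Fintype.card_subtype_le _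
  refine (cnt_union (fun Q : {v // v ∈ S} → Finset {v // v ∉ S} => (∀ v, (Q v).card ≤ 503) ∧
    (∀ v, 124 * n ≤ 250 * ((nbr ρ (Q v)).card + k)) ∧
    c * n ≤ 100 * ((univ.filter (fun z => ∀ v, z ∈ nbr ρ (Q v))).card + k))
    (fun Q ψ => ∀ z, (∀ v, z ∈ nbr ρ (Q v) → ψ z v = false) ∧ ∃ v, ψ z v = false) (2 ^ X) ?_ ?_).trans
    (mul_le_mul_of_nonneg_right ?_ (by positivity))
  · rintro ψ ⟨O, ⟨⟨ok, -⟩, Q, q1, q2, q3⟩, rfl, rfl⟩
    have key : ∀ (v : {v // v ∈ S}) (z : {v // v ∉ S}),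
        z ∈ nbr (res S O) ((Q v).subtype (· ∉ S)) ↔ z.1 ∈ nbr O (Q v) := by
      intro v z
      simp only [mem_nbr, mem_subtype]
      exact ⟨fun ⟨u, a, b⟩ => ⟨u, a, b⟩, fun ⟨u, a, b⟩ => ⟨⟨u, ((q1 v v.2).2.1 u a).2⟩, a, b⟩⟩
    refine ⟨fun v => (Q v).subtype (· ∉ S), ⟨fun v => ?_, fun v => ?_, ?_⟩, fun z => ⟨fun v hv => ?_, ?_⟩⟩
    · rw [card_subtype]; exact (card_filter_le _ _).trans (q1 v v.2).1
    · refine (q1 v v.2).2.2.trans (Nat.mul_le_mul_left _ (hS ▸ card_le_sub S _ _ (fun z hz => ?_)))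
      exact (key v z).2 hz
    · refine q3.trans (Nat.mul_le_mul_left _ (hS ▸ card_le_sub S _ _ (fun z hz => ?_)))
      simp only [mem_filter, mem_univ, true_and] at hz ⊢
      exact fun v => (key v z).2 (hz v v.2)
    · obtain ⟨u, a, b⟩ := mem_nbr.1 ((key v z).1 hv)
      simpa [nb] using ok.tri ((q1 v v.2).2.1 u a).1 b
    · obtain ⟨v, a, b⟩ := q2 z
      exact ⟨⟨v, a⟩, by simpa [nb] using b⟩
  · rintro Q ⟨-, q2, q3⟩
    refine (cnt_w _ _ (fun z => pz α β δ (by omega) (cS ▸ h0) (cS ▸ h1)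
      (fun v => z ∈ nbr ρ (Q v)))).trans (Real.rpow_le_rpow_of_exponent_le (by norm_num) ?_)
    rw [sum_sub_distrib, sum_sub_distrib, sum_comm, ← sum_filter]
    have a1 : (k : ℝ) * (β * (124 / 250 * n - k)) ≤
        ∑ v : {v // v ∈ S}, ∑ z, if z ∈ nbr ρ (Q v) then β else 0 := by
      rw [← cS, ← card_univ, ← nsmul_eq_mul]
      refine card_nsmul_le_sum _ _ _ (fun v _ => ?_)
      have : (124 : ℝ) * n ≤ 250 * ((nbr ρ (Q v)).card + k) := by exact_mod_cast q2 v
      rw [← sum_filter, sum_const, nsmul_eq_mul, mul_comm, filter_mem_eq_inter, univ_inter,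
        card_univ, cS]
      exact mul_le_mul_of_nonneg_right (by linarith) hβ
    have a2 : (c : ℝ) * n ≤ 100 * ((univ.filter (fun z => ∀ v, z ∈ nbr ρ (Q v))).card + k) := by
      exact_mod_cast q3
    have a3 := mul_le_mul_of_nonneg_left cW hα
    have a4 := mul_le_mul_of_nonneg_left a2 hδ
    simp only [sum_const, nsmul_eq_mul, card_univ]
    rw [hX]; nlinarith
  · refine (cnt_mono (fun Q h => h.1)).trans ?_
    rw [cnt_prod (fun _ (Q : Finset {v // v ∉ S}) => Q.card ≤ 503), prod_const, card_univ, cS]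
    exact pow_le_pow_left₀ (cnt_nonneg _) ((small_sets 503).trans (by gcongr)) _

lemma clC (hn : 20000 ≤ Fintype.card V) :
    cnt (fun O : Ob V => (Ok O ∧ MinD O) ∧ PK 2 5 O) ≤ HH 2 (Fintype.card V) := by
  refine clK 2 5 (317 / 200) (117 / 200) (83 / 200) (by norm_num) (by norm_num) (by norm_num)
    (by norm_num) (by norm_num) (by norm_num) (by norm_num)
    (le_trans (by norm_num) MP_72200a_co.three) (fun a h1 h2 => ?_) (by norm_num) hn
  interval_cases a <;> norm_num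

lemma clT (hn : 20000 ≤ Fintype.card V) :
    cnt (fun O : Ob V => (Ok O ∧ MinD O) ∧ PK 3 48 O) ≤ HH 3 (Fintype.card V) := by
  have h := MP_72200a_co.le2 (x := 7) 351 125 (by norm_num) (by decide +kernel)
  refine clK 3 48 (351 / 125) (101 / 125) (48 / 125) (by norm_num) (by norm_num) (by norm_num)
    (by norm_num) (by norm_num) (by norm_num) (by norm_num)
    (by norm_num at h ⊢; exact h) (fun a h1 h2 => ?_) (by norm_num) hn
  interval_cases a <;> norm_num

end Pool.Agent.H.MP_c00610_co
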