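import Pool.Agent.H.MP_c00610_co.R

set_option linter.unusedSectionVars false

namespace Pool.Agent.H.MP_c00610_co
open Finset Pool.Agent.H.MP_e84969_co Filter Topology

variable {V : Type} [Fintype V] [DecidableEq V]

abbrev Dt (B : Finset V) := {y // y ∉ B} → Bool × ({b // b ∈ B} → Bool)

def ed {B : Finset V} (D : Dt B) (s : Bool) (y b : V) : Prop :=
  ∃ (hy : y ∉ B) (hb : b ∈ B), (D ⟨y, hy⟩).1 = s ∧ (D ⟨y, hy⟩).2 ⟨b, hb⟩ = true

def rel {B : Finset V} (D : Dt B) (N : V → Bool) (a c : V) : Prop :=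
  (a = c ∧ N a = false) ∨ ed D false a c ∨ ed D true c a ∨ ∃ b, ed D false a b ∧ ed D true c b

def Gen {B : Finset V} (D : Dt B) : Prop :=
  (∀ y, ∃ b, (D y).2 b = true) ∧ ∀ b s, ∃ y, (D y).1 = s ∧ (D y).2 b = true

def Sup (B : Finset V) (N : V → Bool) : Prop := (∀ v ∈ B, N v = false) ∨ ∀ v ∈ Bᶜ, N v = false

open Classical in
noncomputable def mid (R : V → V → Bool) : Finset V :=
  univ.filter (fun b => (∃ a, a ≠ b ∧ R a b = true) ∧ ∃ c, c ≠ b ∧ R b c = true)

open Classical in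
lemma low_inj (B : Finset V) : cnt (fun z : Dt B × (V → Bool) => Gen z.1 ∧ Sup B z.2) ≤
    cnt (fun R : V → V → Bool => Idem R ∧ mid R = B) := by
  have e1 : ∀ (D : Dt B) s y b, ed D s y b → y ∉ B ∧ b ∈ B := fun D s y b ⟨a, b, _⟩ => ⟨a, b⟩
  have e2 : ∀ (D : Dt B) y b c, ed D false y b → ed D true y c → False :=
    fun D y b c ⟨_, _, a, _⟩ ⟨_, _, b, _⟩ => by simp [a] at b
  refine cnt_inj (fun z a c => decide (rel z.1 z.2 a c)) ?_ ?_
  · rintro ⟨D, N⟩ ⟨g, s⟩
    have e1 := e1 D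
    have e2 := e2 D
    refine ⟨fun a c => ?_, ?_⟩
    · simp only [decide_eq_true_eq]
      constructor
      · rintro (h | h | h | ⟨b, h1, h2⟩)
        · obtain ⟨rfl, h⟩ := h
          exact ⟨a, Or.inl ⟨rfl, h⟩, Or.inl ⟨rfl, h⟩⟩
        · rcases s with s | s
          · exact ⟨c, Or.inr (Or.inl h), Or.inl ⟨rfl, s c (e1 _ _ _ h).2⟩⟩
          · exact ⟨a, Or.inl ⟨rfl, s a (mem_compl.2 (e1 _ _ _ h).1)⟩, Or.inr (Or.inl h)⟩
        · rcases s with s | s
          · exact ⟨a, Or.inl ⟨rfl, s a (e1 _ _ _ h).2⟩, Or.inr (Or.inr (Or.inl h))⟩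
          · exact ⟨c, Or.inr (Or.inr (Or.inl h)), Or.inl ⟨rfl, s c (mem_compl.2 (e1 _ _ _ h).1)⟩⟩
        · exact ⟨b, Or.inr (Or.inl h1), Or.inr (Or.inr (Or.inl h2))⟩
      · rintro ⟨k, ⟨rfl, -⟩ | h | h | ⟨b, h1, h2⟩, h'⟩
        · exact h'
        · rcases h' with ⟨rfl, -⟩ | h' | h' | ⟨b, h', -⟩
          · exact Or.inr (Or.inl h)
          · exact absurd (e1 _ _ _ h).2 (e1 _ _ _ h').1
          · exact Or.inr (Or.inr (Or.inr ⟨k, h, h'⟩))
          · exact absurd (e1 _ _ _ h).2 (e1 _ _ _ h').1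
        · rcases h' with ⟨rfl, -⟩ | h' | h' | ⟨b, h', -⟩
          · exact Or.inr (Or.inr (Or.inl h))
          · exact (e2 _ _ _ h' h).elim
          · exact absurd (e1 _ _ _ h').2 (e1 _ _ _ h).1
          · exact (e2 _ _ _ h' h).elim
        · rcases h' with ⟨rfl, -⟩ | h' | h' | ⟨b, h', -⟩
          · exact Or.inr (Or.inr (Or.inr ⟨b, h1, h2⟩))
          · exact (e2 _ _ _ h' h2).elim
          · exact absurd (e1 _ _ _ h').2 (e1 _ _ _ h2).1
          · exact (e2 _ _ _ h' h2).elim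
    · ext b
      simp only [mid, mem_filter, mem_univ, true_and, decide_eq_true_eq]
      constructor
      · rintro ⟨⟨a, a1, ⟨h, -⟩ | h | h | ⟨x, -, h⟩⟩, ⟨c, c1, ⟨h', -⟩ | h' | h' | ⟨x', h', -⟩⟩⟩
        all_goals first
          | exact (a1 h).elim
          | exact (c1 (Eq.symm h')).elim
          | exact (e1 _ _ _ h').2
          | exact (e2 _ _ _ h' h).elim
          | exact (e1 _ _ _ h).2
      · intro hb
        obtain ⟨y, y1⟩ := g.2 ⟨b, hb⟩ false
        obtain ⟨z, z1⟩ := g.2 ⟨b, hb⟩ true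
        exact ⟨⟨y, fun e => y.2 (e ▸ hb), Or.inr (Or.inl ⟨y.2, hb, y1⟩)⟩,
          ⟨z, fun e => z.2 (e ▸ hb), Or.inr (Or.inr (Or.inl ⟨z.2, hb, z1⟩))⟩⟩
  · rintro ⟨D, N⟩ ⟨D', N'⟩ ⟨g, -⟩ ⟨g', -⟩ e
    have e3 : ∀ a c, rel D N a c ↔ rel D' N' a c := fun a c => by
      simpa using congrFun (congrFun e a) c
    have k1 : ∀ (D : Dt B) N a, rel D N a a ↔ N a = false := fun D N a =>
      ⟨fun h => by
        rcases h with h | h | h | ⟨b, h, h'⟩
        · exact h.2
        · exact absurd (e1 _ _ _ _ h).2 (e1 _ _ _ _ h).1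
        · exact absurd (e1 _ _ _ _ h).2 (e1 _ _ _ _ h).1
        · exact (e2 _ _ _ _ h h').elim, fun h => Or.inl ⟨rfl, h⟩⟩
    have k2 : ∀ (D : Dt B) N (y : {y // y ∉ B}) (b : {b // b ∈ B}),
        (rel D N y b ↔ (D y).1 = false ∧ (D y).2 b = true) ∧
        (rel D N b y ↔ (D y).1 = true ∧ (D y).2 b = true) := by
      intro D N y b
      refine ⟨⟨fun h => ?_, fun h => Or.inr (Or.inl ⟨y.2, b.2, h⟩)⟩,
        ⟨fun h => ?_, fun h => Or.inr (Or.inr (Or.inl ⟨y.2, b.2, h⟩))⟩⟩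
      · rcases h with h | ⟨_, _, h⟩ | h | ⟨x, -, h⟩
        · exact absurd (h.1 ▸ b.2) y.2
        · exact h
        · exact absurd b.2 (e1 _ _ _ _ h).1
        · exact absurd b.2 (e1 _ _ _ _ h).1
      · rcases h with h | h | ⟨_, _, h⟩ | ⟨x, h, -⟩
        · exact absurd (h.1 ▸ b.2) y.2
        · exact absurd b.2 (e1 _ _ _ _ h).1
        · exact h
        · exact absurd b.2 (e1 _ _ _ _ h).1
    have k3 : ∀ y b, ((D y).1 = false ∧ (D y).2 b = true ↔ (D' y).1 = false ∧ (D' y).2 b = true) ∧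
        ((D y).1 = true ∧ (D y).2 b = true ↔ (D' y).1 = true ∧ (D' y).2 b = true) := fun y b =>
      ⟨(k2 D N y b).1.symm.trans ((e3 _ _).trans (k2 D' N' y b).1),
        (k2 D N y b).2.symm.trans ((e3 _ _).trans (k2 D' N' y b).2)⟩
    refine Prod.ext (funext fun y => Prod.ext ?_ (funext fun b => ?_)) (funext fun a => ?_)
    · obtain ⟨b, hb⟩ := g.1 y
      have := k3 y b
      revert this hb
      dsimp only
      cases (D y).1 <;> cases (D' y).1 <;> cases (D y).2 b <;> simp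
    · have := k3 y b
      revert this
      dsimp only
      cases (D y).1 <;> cases (D' y).1 <;> cases (D y).2 b <;> cases (D' y).2 b <;> simp
    · have := (k1 D N a).symm.trans ((e3 a a).trans (k1 D' N' a))
      revert this
      dsimp only
      cases N a <;> cases N' a <;> simp

lemma cnt_pair {α β : Type} [Finite α] [Finite β] (p : α → Prop) (q : β → Prop) :
    cnt (fun z : α × β => p z.1 ∧ q z.2) = cnt p * cnt q := by
  classical
  have := Fintype.ofFinite α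
  have := Fintype.ofFinite β
  simp only [cnt_eq_card]
  rw [← univ_product_univ, filter_product, card_product, Nat.cast_mul]

lemma cnt_sup (B : Finset V) : 2 ^ B.card + 2 ^ Bᶜ.card - 1 ≤ cnt (Sup B) := by
  classical
  have h1 := cntN B
  have h2 := cntN Bᶜ
  have h3 := cntN (univ : Finset V)
  rw [compl_compl] at h2
  rw [compl_univ, card_empty, pow_zero] at h3
  rw [← h1, ← h2, ← h3]
  simp only [cnt_eq_card]
  have := card_union_add_card_inter (univ.filter (fun N : V → Bool => ∀ v ∈ B, N v = false))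
    (univ.filter (fun N : V → Bool => ∀ v ∈ Bᶜ, N v = false))
  rw [← filter_or, ← filter_and] at this
  have a : (univ.filter (fun N : V → Bool => (∀ v ∈ B, N v = false) ∧ ∀ v ∈ Bᶜ, N v = false)).card ≤
      (univ.filter (fun N : V → Bool => ∀ v ∈ (univ : Finset V), N v = false)).card :=
    card_le_card (fun N hN => by
      simp only [mem_filter, mem_univ, true_and, mem_compl] at hN ⊢
      exact fun v _ => (em (v ∈ B)).elim (hN.1 v) (hN.2 v))
  have b : (univ.filter (fun N : V → Bool => (∀ v ∈ B, N v = false) ∨ ∀ v ∈ Bᶜ, N v = false)).card ≤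
      (univ.filter (Sup B)).card := card_le_card (fun N hN => by simpa [Sup] using hN)
  rw [sub_le_iff_le_add]
  exact_mod_cast (by omega)

lemma cnt_gen (B : Finset V) : (2 * 2 ^ B.card) ^ Bᶜ.card *
    (1 - Bᶜ.card * (1 / 2) ^ B.card - 2 * B.card * (3 / 4) ^ Bᶜ.card) ≤ cnt (Gen (B := B)) := by
  have cY : Fintype.card {y // y ∉ B} = Bᶜ.card := by rw [card_res, card_compl]
  have c0 : cnt (fun _ : Bool × ({b // b ∈ B} → Bool) => True) = 2 * 2 ^ B.card := by
    simp [cnt_true]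
  have a0 : cnt (fun _ : Dt B => True) = (2 * 2 ^ B.card) ^ Bᶜ.card := by
    simp [cnt_true, cY]
  have a1 : cnt (fun D : Dt B => ∃ y, ∀ b, (D y).2 b = false) ≤
      Bᶜ.card * ((2 * 2 ^ B.card) ^ Bᶜ.card * (1 / 2) ^ B.card) := by
    refine (cnt_union (fun _ : {y // y ∉ B} => True)
      (fun y0 (D : Dt B) => ∀ y, y = y0 → ∀ b, (D y).2 b = false) _
      (fun D ⟨y, h⟩ => ⟨y, trivial, fun _ e => e ▸ h⟩) (fun y0 _ => ?_)).trans
      (by rw [cnt_true, cY])
    rw [cnt_prod (fun y (d : Bool × ({b // b ∈ B} → Bool)) => y = y0 → ∀ b, d.2 b = false)]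
    refine (prod_le_prod (g := fun y => 2 * 2 ^ B.card * if y = y0 then (1 / 2) ^ B.card else 1)
      (fun _ _ => cnt_nonneg _) (fun y _ => ?_)).trans (by rw [prod_mul_distrib]; simp [cY])
    split_ifs with h
    · refine (cnt_inj (r := fun _ : Bool => True) Prod.fst (fun _ _ => trivial)
        (fun d d' x x' e => Prod.ext e (funext fun b => (x h b).trans (x' h b).symm))).trans ?_
      rw [cnt_true, mul_assoc, ← mul_pow]; simp
    · rw [mul_one, ← c0]; exact cnt_mono (fun _ _ => trivial)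
  have a2 : cnt (fun D : Dt B => ∃ p : {b // b ∈ B} × Bool,
      ∀ y, ¬ ((D y).1 = p.2 ∧ (D y).2 p.1 = true)) ≤
      2 * B.card * ((2 * 2 ^ B.card) ^ Bᶜ.card * (3 / 4) ^ Bᶜ.card) := by
    refine (cnt_union (fun _ : {b // b ∈ B} × Bool => True)
      (fun p (D : Dt B) => ∀ y, ¬ ((D y).1 = p.2 ∧ (D y).2 p.1 = true))
      ((2 * 2 ^ B.card) ^ Bᶜ.card * (3 / 4) ^ Bᶜ.card)
      (fun D ⟨p, h⟩ => ⟨p, trivial, h⟩) (fun p _ => ?_)).trans
      (by rw [cnt_true]; simp [mul_comm (B.card : ℝ)])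
    rw [cnt_prod (fun _ (d : Bool × ({b // b ∈ B} → Bool)) => ¬ (d.1 = p.2 ∧ d.2 p.1 = true)),
      prod_const, card_univ, cY, ← mul_pow]
    refine pow_le_pow_left₀ (cnt_nonneg _) ?_ _
    have x1 := cnt_pair (fun s : Bool => s = !p.2) (fun _ : {b // b ∈ B} → Bool => True)
    have x2 := cnt_pair (fun s : Bool => s = p.2)
      (fun φ : {b // b ∈ B} → Bool => ∀ v ∈ ({p.1} : Finset _), φ v = false)
    have x3 : ∀ t : Bool, cnt (fun s : Bool => s = t) = 1 := fun t => by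
      simp [cnt_eq_card, filter_eq']
    rw [x3, cnt_true] at x1
    rw [x3, cntN, card_compl, card_singleton, Fintype.card_coe] at x2
    refine (cnt_or (fun d h => ?_)).trans ((add_le_add x1.le x2.le).trans (le_of_eq ?_))
    · revert h
      simp only [mem_singleton, forall_eq]
      cases d.1 <;> cases p.2 <;> simp
    · obtain ⟨m, hm⟩ := Nat.exists_eq_succ_of_ne_zero (card_pos.2 ⟨_, p.1.2⟩).ne'
      simp only [Fintype.card_fun, Fintype.card_coe, Fintype.card_bool, hm, Nat.succ_sub_one]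
      push_cast; rw [pow_succ]; ring
  have a3 := (cnt_or (p := fun _ : Dt B => True) (r := Gen) (fun D _ => ?_)).trans
    (add_le_add le_rfl ((cnt_or (fun _ h => h)).trans (add_le_add a1 a2)))
  · rw [a0] at a3; linarith
  by_contra hh
  simp only [not_or, not_exists, not_forall, not_not, Bool.not_eq_false] at hh
  exact hh.1 ⟨hh.2.1, fun b s => hh.2.2 (b, s)⟩

lemma low_bal (B : Finset V) (h1 : Fintype.card V ≤ 4 * B.card) (h2 : Fintype.card V ≤ 4 * Bᶜ.card) :
    tt B.card Bᶜ.card * (1 - 3 * ((Fintype.card V + 1) ^ 1 * ((3 / 4 : ℝ) ^ (1 / 4 : ℝ)) ^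
      Fintype.card V)) ≤ cnt (fun R : V → V → Bool => Idem R ∧ mid R = B) := by
  refine le_trans ?_ (low_inj B)
  rw [cnt_pair Gen (Sup B)]
  set ρ := ((3 / 4 : ℝ) ^ (1 / 4 : ℝ)) ^ Fintype.card V with hρ
  have k : ∀ m : ℕ, Fintype.card V ≤ 4 * m → (3 / 4 : ℝ) ^ m ≤ ρ := by
    intro m hm
    rw [hρ, ← Real.rpow_mul_natCast (by norm_num), ← Real.rpow_natCast]
    have : (Fintype.card V : ℝ) ≤ 4 * m := by exact_mod_cast hm
    exact Real.rpow_le_rpow_of_exponent_ge (by norm_num) (by norm_num) (by linarith)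
  have r0 : 0 ≤ ρ := by positivity
  have r1 : ρ ≤ 1 := pow_le_one₀ (by positivity) (Real.rpow_le_one (by norm_num) (by norm_num)
    (by norm_num))
  have k1 : (1 / 2 : ℝ) ^ B.card ≤ ρ :=
    (pow_le_pow_left₀ (by norm_num) (by norm_num) _).trans (k _ h1)
  have k2 := k _ h2
  have e : (B.card : ℝ) + Bᶜ.card = Fintype.card V := by exact_mod_cast card_add_card_compl B
  have b0 : (0 : ℝ) ≤ B.card := by positivity
  have y0 : (0 : ℝ) ≤ Bᶜ.card := by positivity
  have g1 : (2 * 2 ^ B.card) ^ Bᶜ.card * (1 - 2 * Fintype.card V * ρ) ≤ cnt (Gen (B := B)) := by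
    refine le_trans (mul_le_mul_of_nonneg_left ?_ (by positivity)) (cnt_gen B)
    have := mul_le_mul_of_nonneg_left k1 y0
    have := mul_le_mul_of_nonneg_left k2 b0
    nlinarith
  have g2 : (2 ^ B.card + 2 ^ Bᶜ.card) * (1 - ρ) ≤ cnt (Sup B) := by
    refine le_trans ?_ (cnt_sup B)
    have : (1 : ℝ) ≤ 2 ^ B.card * ρ := by
      refine le_trans (le_of_eq ?_) (mul_le_mul_of_nonneg_left k1 (by positivity))
      rw [← mul_pow]; simp
    have : 0 ≤ 2 ^ Bᶜ.card * ρ := by positivity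
    nlinarith
  refine le_trans ?_ ((mul_le_mul_of_nonneg_right g1 (mul_nonneg (by positivity)
    (by linarith))).trans (mul_le_mul_of_nonneg_left g2 (cnt_nonneg _)))
  rw [tt, pow_mul, pow_succ', mul_mul_mul_comm]
  refine mul_le_mul_of_nonneg_left ?_ (by positivity)
  have n0 : (0 : ℝ) ≤ Fintype.card V := by positivity
  have := mul_nonneg n0 r0
  have := mul_nonneg this r0
  nlinarith

lemma II_low {n : ℕ} (hn : 100 ≤ n) :
    ff n * (1 - 3 * ((n + 1) ^ 1 * ((3 / 4 : ℝ) ^ (1 / 4 : ℝ)) ^ n) - (1 / 2) ^ n) ≤ II n := by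
  refine le_trans ?_ (cnt_fib (p := Idem) (univ : Finset (Finset (Fin n))) mid)
  have e := ff_eq (V := Fin n)
  rw [Fintype.card_fin] at e
  have e2 : ff n * (1 / 2) ^ n = ∑ _B : Finset (Fin n), ff n * (1 / 4) ^ n := by
    simp only [sum_const, card_univ, Fintype.card_finset, Fintype.card_fin, nsmul_eq_mul]
    push_cast
    rw [mul_left_comm, ← mul_pow]; norm_num
  rw [mul_sub, e2, ← e, sum_mul, e, ← sum_sub_distrib]
  refine sum_le_sum (fun B _ => ?_)
  have f0 : 0 ≤ ff n * (1 / 4) ^ n := mul_nonneg (ff_pos n).le (by positivity)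
  by_cases h : n ≤ 4 * B.card ∧ n ≤ 4 * Bᶜ.card
  · have := low_bal B (by simpa using h.1) (by simpa using h.2)
    rw [Fintype.card_fin] at this
    linarith
  refine le_trans ?_ (cnt_nonneg _)
  have c := card_add_card_compl B
  rw [Fintype.card_fin] at c
  have t1 : tt B.card Bᶜ.card ≤ ff n * (1 / 4) ^ n := by
    refine le_trans ?_ (mul_le_mul_of_nonneg_right (ff_ge n) (by positivity))
    have t2 : tt B.card Bᶜ.card ≤ 2 ^ ((B.card + 1) * Bᶜ.card + (n + 1)) := by
      rw [tt, pow_add, pow_succ 2 n, mul_two]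
      gcongr <;> first | omega | norm_num
    refine t2.trans ?_
    rw [show (1 / 4 : ℝ) = 2 ^ (-2 : ℝ) by norm_num, ← Real.rpow_mul_natCast (by norm_num),
      ← Real.rpow_add (by norm_num), ← Real.rpow_natCast]
    refine Real.rpow_le_rpow_of_exponent_le (by norm_num) ?_
    have c' : (B.card : ℝ) + Bᶜ.card = n := by exact_mod_cast c
    have n1 : (100 : ℝ) ≤ n := by exact_mod_cast hn
    have b0 : (0 : ℝ) ≤ B.card := by positivity
    have y0 : (0 : ℝ) ≤ Bᶜ.card := by positivity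
    push_cast
    rcases not_and_or.1 h with h | h
    · have : 4 * (B.card : ℝ) ≤ n := by exact_mod_cast (not_le.1 h).le
      nlinarith
    · have : 4 * (Bᶜ.card : ℝ) ≤ n := by exact_mod_cast (not_le.1 h).le
      nlinarith
  have := mul_nonneg (tt_pos B.card Bᶜ.card).le
    (by positivity : (0 : ℝ) ≤ 3 * ((n + 1) ^ 1 * ((3 / 4 : ℝ) ^ (1 / 4 : ℝ)) ^ n))
  linarith

theorem main : Tendsto (fun n => II n / ff n) atTop (𝓝 1) := by
  obtain ⟨e, he, h⟩ := II_up
  have l1 := (polygeo 1 (r := (3 / 4 : ℝ) ^ (1 / 4 : ℝ)) (by positivity)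
    (Real.rpow_lt_one (by norm_num) (by norm_num) (by norm_num))).const_mul 3
  have l2 := tendsto_pow_atTop_nhds_zero_of_lt_one (r := (1 / 2 : ℝ)) (by norm_num) (by norm_num)
  have h1 := (l1.const_sub 1).sub l2
  have h2 := he.const_add 1
  rw [mul_zero, sub_zero, sub_zero] at h1
  rw [add_zero] at h2
  refine tendsto_of_tendsto_of_tendsto_of_le_of_le' h1 h2 ?_ ?_
  · filter_upwards [eventually_ge_atTop 100] with n hn
    rw [le_div_iff₀ (ff_pos n), mul_comm]
    exact II_low hn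
  · filter_upwards [h] with n hn
    rwa [div_le_iff₀ (ff_pos n), mul_comm]

end Pool.Agent.H.MP_c00610_co
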