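import Pool.Agent.H.MP_c00610_co.S

set_option linter.unusedSectionVars false

namespace Pool.Agent.H.MP_c00610_co
open Finset Pool.Agent.H.MP_e84969_co

variable {V : Type} [Fintype V] [DecidableEq V]

lemma cntE (X : Finset V) (U : Finset (V × V)) (hU : U ⊆ X ×ˢ Xᶜ) (p : Ob V → Prop)
    (hp : ∀ O, p O → Ok O ∧ Bip X O ∧ ∀ e ∈ U, ¬ adj O e.1 e.2)
    (hi : ∀ O O', p O → p O' → O.2 = O'.2 ∧
      ∀ x ∈ X, ∀ y ∉ X, adj O x y → adj O' x y → O.1 x y = O'.1 x y) :
    cnt p ≤ 2 ^ (X.card * Xᶜ.card) * (1 / 2) ^ U.card := by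
  refine (cnt_inj (r := fun E => E ∈ ((X ×ˢ Xᶜ) \ U).powerset)
    (fun O => (X ×ˢ Xᶜ).filter (fun e => adj O e.1 e.2)) (fun O hO => ?_) ?_).trans ?_
  · refine mem_powerset.2 (fun e he => mem_sdiff.2 ⟨(mem_filter.1 he).1, fun h => ?_⟩)
    exact (hp O hO).2.2 e h (mem_filter.1 he).2
  · intro O O' h h' e
    obtain ⟨k, b, -⟩ := hp O h
    obtain ⟨k', b', -⟩ := hp O' h'
    obtain ⟨e1, e2⟩ := hi O O' h h'
    have e3 : ∀ x ∈ X, ∀ y ∉ X, adj O x y ↔ adj O' x y := fun x hx y hy => by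
      simpa [hx, hy] using Finset.ext_iff.1 e (x, y)
    refine Prod.ext (funext fun x => funext fun y => ?_) e1
    have a1 := b x y; have a2 := b' x y; have a3 := fun h => e2 x h y; have a4 := fun h => e2 y h x
    have a5 := fun h => e3 x h y; have a6 := fun h => e3 y h x
    have a7 := k.asym x y; have a8 := k'.asym x y
    unfold adj at a1 a2 a3 a4 a5 a6
    revert a1 a2 a3 a4 a5 a6 a7 a8
    cases O.1 x y <;> cases O.1 y x <;> cases O'.1 x y <;> cases O'.1 y x <;>
      by_cases x ∈ X <;> by_cases y ∈ X <;> simp [*]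
  · rw [cnt_eq_card, filter_mem_eq_inter, univ_inter, card_powerset, card_sdiff_of_subset hU,
      card_product, Nat.cast_pow, Nat.cast_ofNat, pow_sub₀ _ (by norm_num)
      (by simpa using card_le_card hU)]
    simp

lemma cntN (A : Finset V) : cnt (fun N : V → Bool => ∀ v ∈ A, N v = false) = 2 ^ Aᶜ.card := by
  rw [cnt_prod (fun v (b : Bool) => v ∈ A → b = false), ← prod_mul_prod_compl A,
    prod_congr rfl (g := fun _ => (1 : ℝ)) (fun v hv => by simp [cnt_eq_card, hv, filter_eq']),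
    prod_congr (s₁ := Aᶜ) rfl (g := fun _ => (2 : ℝ))
      (fun v hv => by simp [cnt_eq_card, mem_compl.1 hv])]
  simp

noncomputable def tt (b y : ℕ) : ℝ := 2 ^ ((b + 1) * y) * (2 ^ b + 2 ^ y)

def Main (B : Finset V) (O : Ob V) : Prop := Ok O ∧ Bip B O ∧
  (∃ σ : V → Bool, ∀ b ∈ B, ∀ y ∉ B, adj O b y → O.1 b y = σ y) ∧
  ((∀ v ∈ B, O.2 v = false) ∨ ∀ v ∈ Bᶜ, O.2 v = false)

lemma cnt_main (B : Finset V) : cnt (Main B) ≤ tt B.card Bᶜ.card := by
  refine (cnt_union (fun σ : V → Bool => ∀ v ∈ B, σ v = false) (fun σ O => Main B O ∧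
    ∀ b ∈ B, ∀ y ∉ B, adj O b y → O.1 b y = σ y)
    ((2 ^ Bᶜ.card + 2 ^ B.card) * 2 ^ (B.card * Bᶜ.card)) (fun O hO => ?_) (fun σ _ => ?_)).trans ?_
  · obtain ⟨σ, hσ⟩ := hO.2.2.1
    exact ⟨fun v => if v ∈ B then false else σ v, fun v hv => if_pos hv, hO,
      fun b hb y hy a => by simpa [hy] using hσ b hb y hy a⟩
  · refine (cnt_union (fun N : V → Bool => (∀ v ∈ B, N v = false) ∨ ∀ v ∈ Bᶜ, N v = false)
      (fun N O => (Main B O ∧ ∀ b ∈ B, ∀ y ∉ B, adj O b y → O.1 b y = σ y) ∧ O.2 = N)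
      (2 ^ (B.card * Bᶜ.card)) (fun O hO => ⟨_, hO.1.2.2.2, hO, rfl⟩) (fun N _ => ?_)).trans
      (mul_le_mul_of_nonneg_right ?_ (by positivity))
    · simpa using cntE B ∅ (empty_subset _) (fun O => (Main B O ∧
        ∀ b ∈ B, ∀ y ∉ B, adj O b y → O.1 b y = σ y) ∧ O.2 = N)
        (fun O h => ⟨h.1.1.1, h.1.1.2.1, by simp⟩) (fun O O' h h' => ⟨h.2.trans h'.2.symm,
          fun x hx y hy a a' => (h.1.2 x hx y hy a).trans (h'.1.2 x hx y hy a').symm⟩)
    · refine (cnt_or (fun _ h => h)).trans ?_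
      rw [cntN, cntN, compl_compl]
  · rw [cntN, tt]; apply le_of_eq; ring

lemma sumP (X Y : Finset V) (s : ℝ) (hs : 0 ≤ s) (w : Finset V × Finset V → ℝ)
    (h : ∀ p, w p ≤ (if p.1.card ≤ 12 then 1 else 0) * s ^ p.2.card +
      s ^ p.1.card * (if p.2.card ≤ 12 then 1 else 0) + (1 / 4) ^ p.1.card * (1 / 4) ^ p.2.card) :
    ∑ p ∈ X.powerset ×ˢ Y.powerset, w p ≤ (Fintype.card V + 1) ^ 12 * (1 + s) ^ Y.card +
      (1 + s) ^ X.card * (Fintype.card V + 1) ^ 12 + (5 / 4) ^ (X.card + Y.card) := by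
  have h1 : ∀ (Z : Finset V) (r : ℝ), ∑ A ∈ Z.powerset, r ^ A.card = (1 + r) ^ Z.card := by
    intro Z r
    have := prod_one_add (f := fun _ => r) Z
    simpa using this.symm
  have h2 : ∀ Z : Finset V, ∑ A ∈ Z.powerset, (if A.card ≤ 12 then (1 : ℝ) else 0) ≤
      (Fintype.card V + 1) ^ 12 := by
    intro Z
    refine le_trans ?_ (small_sets 12)
    rw [cnt_eq_card, ← sum_filter, sum_const, nsmul_eq_mul, mul_one]
    exact_mod_cast card_le_card (filter_subset_filter _ (subset_univ _))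
  have h3 : ∀ f g : Finset V → ℝ, ∑ p ∈ X.powerset ×ˢ Y.powerset, f p.1 * g p.2 =
      (∑ A ∈ X.powerset, f A) * ∑ A ∈ Y.powerset, g A := fun f g => by
    rw [sum_product, sum_mul_sum]
  refine (sum_le_sum (fun p _ => h p)).trans ?_
  rw [sum_add_distrib, sum_add_distrib, h3 (fun A => if A.card ≤ 12 then 1 else 0) (s ^ ·.card),
    h3 (s ^ ·.card) (fun A => if A.card ≤ 12 then 1 else 0), h3 ((1 / 4) ^ ·.card) ((1 / 4) ^ ·.card),
    h1, h1, h1, h1, ← pow_add]
  have := h2 X; have := h2 Y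
  gcongr; norm_num

lemma ubig {a b : ℕ} (ha : ¬ a ≤ 12) (hb : ¬ b ≤ 12) :
    (3 / 4 : ℝ) ^ (a * b) ≤ (1 / 4) ^ a * (1 / 4) ^ b := by
  rw [← pow_add]
  refine (pow_le_pow_of_le_one (by norm_num) (by norm_num)
    (by nlinarith : 6 * (a + b) ≤ a * b)).trans ?_
  rw [pow_mul]
  exact pow_le_pow_left₀ (by norm_num) (by norm_num) _

def Ne2 (p : Finset V × Finset V) : Prop := p.1.Nonempty ∧ p.2.Nonempty

instance (p : Finset V × Finset V) : Decidable (Ne2 p) := by unfold Ne2; infer_instance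

noncomputable def uu (p : Finset V × Finset V) : ℝ := (3 / 4) ^ (p.1.card * p.2.card)

lemma sig (X : Finset V) (h1 : 124 * Fintype.card V ≤ 250 * X.card)
    (h2 : 124 * Fintype.card V ≤ 250 * Xᶜ.card) (s c : ℝ) (hs : 0 ≤ s) (hc : 1 + s ≤ 2 ^ c)
    (hc' : 7 / 10 ≤ c) : ((Fintype.card V : ℝ) + 1) ^ 12 * (1 + s) ^ Xᶜ.card +
      (1 + s) ^ X.card * (Fintype.card V + 1) ^ 12 + (5 / 4) ^ (X.card + Xᶜ.card) ≤
      3 * ((Fintype.card V + 1) ^ 12 * 2 ^ (c * (126 / 250 * Fintype.card V))) := by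
  have e := card_add_card_compl X
  have a : ∀ m : ℕ, 250 * m ≤ 126 * Fintype.card V →
      (1 + s) ^ m ≤ 2 ^ (c * (126 / 250 * Fintype.card V)) := by
    intro m hm
    have : (250 : ℝ) * m ≤ 126 * Fintype.card V := by exact_mod_cast hm
    refine (pow_le_pow_left₀ (by positivity) hc m).trans ?_
    rw [← Real.rpow_mul_natCast (by norm_num)]
    exact Real.rpow_le_rpow_of_exponent_le (by norm_num)
      (mul_le_mul_of_nonneg_left (by linarith) (by linarith))
  have a1 := a X.card (by omega)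
  have a2 := a Xᶜ.card (by omega)
  have a3 : (5 / 4 : ℝ) ^ (X.card + Xᶜ.card) ≤ 2 ^ (c * (126 / 250 * Fintype.card V)) := by
    have h := MP_72200a_co.le2 (x := 5) 7 3 (by norm_num) (by norm_num)
    have : (5 / 4 : ℝ) ≤ 2 ^ (1 / 3 : ℝ) := by
      rw [show (1 / 3 : ℝ) = (7 : ℕ) / (3 : ℕ) - 2 by norm_num, Real.rpow_sub (by norm_num)]
      norm_num at h ⊢; linarith
    refine (pow_le_pow_left₀ (by positivity) this _).trans ?_
    rw [← Real.rpow_mul_natCast (by norm_num), e]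
    have : (0 : ℝ) ≤ Fintype.card V := by positivity
    exact Real.rpow_le_rpow_of_exponent_le (by norm_num) (by nlinarith)
  have a4 : (1 : ℝ) ≤ (Fintype.card V + 1) ^ 12 := one_le_pow₀ (by simp)
  have a5 : (0 : ℝ) ≤ 2 ^ (c * (126 / 250 * Fintype.card V)) := by positivity
  nlinarith

def Bad (X : Finset V) (O : Ob V) : Prop := ∃ i ∈ (univ : Finset Bool) ×ˢ
  (X.powerset ×ˢ Xᶜ.powerset) ×ˢ (X.powerset ×ˢ Xᶜ.powerset), (Ne2 i.2.1 ∨ Ne2 i.2.2) ∧
  Str X i.2.1.1 i.2.1.2 i.1 O ∧ ∀ v, O.2 v = true ↔ v ∈ i.2.2.1 ∨ v ∈ i.2.2.2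

lemma cnt_bad (X : Finset V) (h1 : 124 * Fintype.card V ≤ 250 * X.card)
    (h2 : 124 * Fintype.card V ≤ 250 * Xᶜ.card) :
    cnt (Bad X) ≤ EE (Fintype.card V) * tt X.card Xᶜ.card := by
  set P := X.powerset ×ˢ Xᶜ.powerset with hP
  have u0 : ∀ p : Finset V × Finset V, 0 ≤ uu p := fun p => by unfold uu; positivity
  have S1 := (sumP X Xᶜ (3 / 4) (by norm_num) (fun p => if Ne2 p then uu p else 0) (fun p => by
    split_ifs with a b c c
    any_goals positivity
    all_goals unfold uu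
    any_goals (have := ubig b c; linarith)
    all_goals
      have a1 := card_pos.2 a.1
      have a2 := card_pos.2 a.2
      have b1 := pow_le_pow_of_le_one (a := (3 / 4 : ℝ)) (by norm_num) (by norm_num)
        (Nat.le_mul_of_pos_left p.2.card a1)
      have b2 := pow_le_pow_of_le_one (a := (3 / 4 : ℝ)) (by norm_num) (by norm_num)
        (Nat.le_mul_of_pos_right p.1.card a2)
      have : (0 : ℝ) ≤ (1 / 4) ^ p.1.card * (1 / 4) ^ p.2.card := by positivity
      have : (0 : ℝ) ≤ (3 / 4) ^ p.1.card := by positivity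
      linarith)).trans (sig X h1 h2 (3 / 4) (81 / 100) (by norm_num) (by
        have h := MP_72200a_co.le2 (x := 7) 281 100 (by norm_num) (by decide +kernel)
        rw [show (81 / 100 : ℝ) = (281 : ℕ) / (100 : ℕ) - 2 by norm_num, Real.rpow_sub (by norm_num)]
        norm_num at h ⊢; linarith) (by norm_num))
  have S0 := (sumP X Xᶜ 1 (by norm_num) uu (fun p => by
    have : uu p ≤ 1 := pow_le_one₀ (by norm_num) (by norm_num)
    have : (0 : ℝ) ≤ (1 / 4) ^ p.1.card * (1 / 4) ^ p.2.card := by positivity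
    split_ifs with b c c
    any_goals (simp only [one_pow]; linarith)
    have := ubig b c
    unfold uu; linarith)).trans (sig X h1 h2 1 1 (by norm_num) (by norm_num) (by norm_num))
  refine (cnt_sum _ _ (fun O h => h)).trans ((sum_le_sum (g := fun i =>
    2 ^ (X.card * Xᶜ.card) * ((if Ne2 i.2.1 then uu i.2.1 else 0) * uu i.2.2 +
      uu i.2.1 * (if Ne2 i.2.2 then uu i.2.2 else 0))) ?_).trans ?_)
  · rintro ⟨τ, p, q⟩ hi
    simp only [mem_product, mem_powerset, mem_univ, true_and] at hi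
    have := u0 p; have := u0 q
    by_cases hne : Ne2 p ∨ Ne2 q
    swap
    · rw [cnt_false (fun O h => hne h.1)]
      refine mul_nonneg (by positivity) ?_
      split_ifs <;> positivity
    refine (cntE X (p.1 ×ˢ p.2 ∪ q.1 ×ˢ q.2) (union_subset (product_subset_product hi.1.1 hi.1.2)
      (product_subset_product hi.2.1 hi.2.2)) _ (fun O h => ⟨h.2.1.1, h.2.1.2.1, fun e he => ?_⟩)
      (fun O O' h h' => ⟨funext fun v => Bool.eq_iff_iff.2 ((h.2.2 v).trans (h'.2.2 v).symm),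
        fun x hx y hy a a' => Bool.eq_iff_iff.2
          ((h.2.1.2.2.2 x hx y hy a).trans (h'.2.1.2.2.2 x hx y hy a').symm)⟩)).trans
      (mul_le_mul_of_nonneg_left ?_ (by positivity))
    · rcases mem_union.1 he with he | he <;> rw [mem_product] at he
      · exact h.2.1.2.2.1 _ he.1 _ he.2
      · have a := (h.2.2 e.1).2 (Or.inl he.1)
        have b := (h.2.2 e.2).2 (Or.inr he.2)
        exact fun x => x.elim (fun x => h.2.1.1.ind _ _ x a b) (fun x => h.2.1.1.ind _ _ x b a)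
    · have a1 := card_le_card (subset_union_left (s₁ := p.1 ×ˢ p.2) (s₂ := q.1 ×ˢ q.2))
      have a2 := card_le_card (subset_union_right (s₁ := p.1 ×ˢ p.2) (s₂ := q.1 ×ˢ q.2))
      rw [card_product] at a1 a2
      have a3 : (1 / 2 : ℝ) ^ (p.1 ×ˢ p.2 ∪ q.1 ×ˢ q.2).card ≤ uu p * uu q := by
        unfold uu
        rw [← pow_add]
        refine le_trans ?_ (pow_le_pow_of_le_one (by norm_num) (by norm_num)
          (by omega : _ ≤ 2 * (p.1 ×ˢ p.2 ∪ q.1 ×ˢ q.2).card))
        rw [pow_mul]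
        exact pow_le_pow_left₀ (by norm_num) (by norm_num) _
      have : 0 ≤ uu p * uu q := by positivity
      dsimp only
      split_ifs with b c c
      any_goals linarith
      tauto
  · rw [← mul_sum, sum_product]
    rw [← hP] at S1 S0
    show _ * ∑ _x : Bool, ∑ y ∈ P ×ˢ P, ((if Ne2 y.1 then uu y.1 else 0) * uu y.2 +
      uu y.1 * if Ne2 y.2 then uu y.2 else 0) ≤ _
    rw [sum_const, sum_add_distrib, sum_product P P, sum_product P P]
    show _ * _ • (∑ x ∈ P, ∑ y ∈ P, (if Ne2 x then uu x else 0) * uu y +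
      ∑ x ∈ P, ∑ y ∈ P, uu x * if Ne2 y then uu y else 0) ≤ _
    rw [← sum_mul_sum, ← sum_mul_sum, mul_comm (∑ i ∈ P, uu i), ← two_mul]
    have b0 : 0 ≤ ∑ i ∈ P, uu i := sum_nonneg (fun p _ => u0 p)
    have b1 := mul_le_mul S1 S0 b0 (by positivity)
    have e := card_add_card_compl X
    have b2 : (2 : ℝ) ^ (X.card * Xᶜ.card) * 2 ^ (Fintype.card V : ℝ) ≤ tt X.card Xᶜ.card := by
      rw [tt, Real.rpow_natCast, ← e, add_mul, one_mul, pow_add, pow_add, mul_assoc,
        mul_comm (2 ^ X.card)]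
      gcongr
      exact le_add_of_nonneg_right (a := (2 : ℝ) ^ X.card) (by positivity)
    refine le_trans ?_ (mul_le_mul_of_nonneg_left b2 (by unfold EE; positivity))
    rw [mul_left_comm (EE _)]
    refine mul_le_mul_of_nonneg_left ?_ (by positivity)
    simp only [card_univ, Fintype.card_bool, nsmul_eq_mul, Nat.cast_ofNat]
    refine (mul_le_mul_of_nonneg_left (mul_le_mul_of_nonneg_left b1 (by norm_num))
      (by norm_num)).trans ?_
    have n0 : (0 : ℝ) ≤ Fintype.card V := by positivity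
    calc _ = ((Fintype.card V : ℝ) + 1) ^ 24 * (36 * 2 ^ (81 / 100 * (126 / 250 * Fintype.card V) +
          1 * (126 / 250 * Fintype.card V) : ℝ)) := by rw [Real.rpow_add (by norm_num)]; ring
      _ ≤ ((Fintype.card V : ℝ) + 1) ^ 1600 * (2 ^ (6 : ℝ) * 2 ^ (81 / 100 * (126 / 250 *
          Fintype.card V) + 1 * (126 / 250 * Fintype.card V) : ℝ)) := by
          gcongr
          · simp
          · norm_num
          · norm_num
      _ ≤ _ := by
          rw [EE, mul_assoc, ← Real.rpow_add (by norm_num), ← Real.rpow_add (by norm_num)]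
          exact mul_le_mul_of_nonneg_left (Real.rpow_le_rpow_of_exponent_le (by norm_num)
            (by linarith)) (by positivity)

lemma split {X X' Y' : Finset V} {τ : Bool} {O : Ob V} (h1 : X' ⊆ X) (h2 : Y' ⊆ Xᶜ)
    (h : Str X X' Y' τ O) : Bad X O ∨ ∃ B, Main B O := by
  by_cases hb : Ne2 (X', Y') ∨ Ne2 (X.filter (O.2 · = true), Xᶜ.filter (O.2 · = true))
  · refine Or.inl ⟨(τ, (X', Y'), (X.filter (O.2 · = true), Xᶜ.filter (O.2 · = true))),
      by simp [h1, h2], hb, h, fun v => ?_⟩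
    by_cases v ∈ X <;> simp [*]
  right
  simp only [Ne2, not_or, not_and_or, not_nonempty_iff_eq_empty, filter_eq_empty_iff,
    Bool.not_eq_true] at hb
  obtain ⟨a, b⟩ := hb
  rcases a with rfl | rfl
  · refine ⟨X, h.1, h.2.1, ⟨fun y => decide (y ∈ Y' ↔ τ = false), fun x hx y hy e => ?_⟩, b⟩
    have := h.2.2.2 x hx y hy e
    grind
  · refine ⟨Xᶜ, h.1, fun a b e => by have := h.2.1 a b e; simp only [mem_compl]; tauto,
      ⟨fun x => !decide (x ∈ X' ↔ τ = false), fun y hy x hx e => ?_⟩, by simpa using b.symm⟩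
    have := h.2.2.2 x (by simpa using hx) y (by simpa using hy) e.symm
    have := h.1.asym x y
    unfold adj at e
    grind

noncomputable def ff (n : ℕ) : ℝ := ∑ b ∈ range (n + 1), n.choose b * tt b (n - b)

lemma ff_eq : ∑ B : Finset V, tt B.card Bᶜ.card = ff (Fintype.card V) := by
  simp only [card_compl]
  have := sum_powerset_apply_card (fun b => tt b (Fintype.card V - b)) (x := (univ : Finset V))
  simpa [ff] using this

lemma G_le {n : ℕ} (hn : 20000 ≤ n) :
    G n ≤ ff n * (1 + EE n) + (HH 1 n + HH 500 n + HH 2 n + HH 3 n) := by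
  have hn' : 20000 ≤ Fintype.card (Fin n) := by simpa using hn
  have a := clA (V := Fin n)
  have b := clB hn'
  have c := clC hn'
  have d := clT hn'
  have e : cnt (fun O : Ob (Fin n) => ∃ B, Main B O) ≤ ff (Fintype.card (Fin n)) :=
    (cnt_sum univ Main (fun O h => by simpa using h)).trans
      ((sum_le_sum (fun B _ => cnt_main B)).trans ff_eq.le)
  have f : cnt (fun O : Ob (Fin n) => ∃ X ∈ univ.filter (fun X : Finset (Fin n) =>
      124 * Fintype.card (Fin n) ≤ 250 * X.card ∧ 124 * Fintype.card (Fin n) ≤ 250 * Xᶜ.card),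
      Bad X O) ≤ EE (Fintype.card (Fin n)) * ff (Fintype.card (Fin n)) := by
    refine (cnt_sum _ Bad (fun O h => h)).trans ((sum_le_sum (fun X hX =>
      cnt_bad X (mem_filter.1 hX).2.1 (mem_filter.1 hX).2.2)).trans ?_)
    rw [← ff_eq, mul_sum]
    exact sum_le_sum_of_subset_of_nonneg (filter_subset _ _)
      (fun _ _ _ => by unfold EE tt; positivity)
  have g := (cnt_or (p := Ok) (fun O h => ?_)).trans (add_le_add a ((cnt_or (fun _ h => h)).trans
    (add_le_add b ((cnt_or (fun _ h => h)).trans (add_le_add c ((cnt_or (fun _ h => h)).trans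
    (add_le_add d ((cnt_or (fun _ h => h)).trans (add_le_add f e)))))))))
  · rw [Fintype.card_fin] at g
    unfold G; linarith
  by_contra hh
  simp only [not_or, not_and'] at hh
  obtain ⟨h1, h2, h3, h4, h5, h6⟩ := hh
  have md : MinD O := by by_contra x; exact h1 x h
  obtain ⟨X, x1, x2, X', y1, Y', y2, τ, s⟩ := str h md (fun x => h2 x md h) (fun x => h3 x md h)
    (fun x => h4 x md h) hn'
  exact (split y1 y2 s).elim (fun z => h5 ⟨X, mem_filter.2 ⟨mem_univ _, x1, x2⟩, z⟩) h6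

end Pool.Agent.H.MP_c00610_co
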