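import Pool.Agent.H.MP_72200a_co.B

set_option linter.unusedSectionVars false

namespace Pool.Agent.H.MP_c00610_co
open Finset Pool.Agent.H.MP_e84969_co

abbrev Ob (V : Type) := (V → V → Bool) × (V → Bool)

variable {V : Type} [Fintype V] [DecidableEq V]

def adj (O : Ob V) (a b : V) : Prop := O.1 a b = true ∨ O.1 b a = true

instance (O : Ob V) (a b : V) : Decidable (adj O a b) := by unfold adj; infer_instance

lemma adj.symm {O : Ob V} {a b : V} (h : adj O a b) : adj O b a := Or.symm h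

structure Ok (O : Ob V) : Prop where
  asym : ∀ a b, O.1 a b = true → O.1 b a = true → False
  p2 : ∀ a b c, O.1 a b = true → O.1 b c = true → ¬ adj O a c
  p3 : ∀ a b c d, O.1 a b = true → O.1 b c = true → O.1 c d = true → ¬ adj O a d
  ind : ∀ a b, O.1 a b = true → O.2 a = true → O.2 b = true → False

lemma Ok.irr {O : Ob V} (h : Ok O) (a : V) : ¬ adj O a a := fun x =>
  h.asym a a (x.elim id id) (x.elim id id)

lemma Ok.tri {O : Ob V} (h : Ok O) {a b c : V} (x : adj O a b) (y : adj O b c) : ¬ adj O a c := by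
  intro z
  rcases x with x | x <;> rcases y with y | y
  · exact h.p2 _ _ _ x y z
  · rcases z with z | z
    · exact h.p2 _ _ _ z y (Or.inl x)
    · exact h.p2 _ _ _ z x (Or.inl y)
  · rcases z with z | z
    · exact h.p2 _ _ _ x z (Or.inl y)
    · exact h.p2 _ _ _ y z (Or.inl x)
  · exact h.p2 _ _ _ y x z.symm

def sg (O : Ob V) (a b : V) : ℤ := if O.1 a b = true then 1 else -1

lemma Ok.sg_symm {O : Ob V} (h : Ok O) {a b : V} (x : adj O a b) : sg O b a = - sg O a b := by
  have := h.asym a b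
  unfold sg; unfold adj at x; grind

lemma Ok.c4 {O : Ob V} (h : Ok O) {a b c d : V} (x : adj O a b) (y : adj O c b) (z : adj O c d)
    (w : adj O a d) : sg O a b + sg O c d = sg O a d + sg O c b := by
  have h1 := h.p3 a b c d
  have h2 := h.p3 b c d a
  have h3 := h.p3 c d a b
  have h4 := h.p3 d a b c
  have h5 := h.p3 d c b a
  have h6 := h.p3 c b a d
  have h7 := h.p3 b a d c
  have h8 := h.p3 a d c b
  have := h.asym a b
  have := h.asym c b
  have := h.asym c d
  have := h.asym a d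
  unfold sg; unfold adj at *; grind

def nbr (O : Ob V) (Q : Finset V) : Finset V := univ.filter (fun z => ∃ u ∈ Q, adj O u z)

lemma mem_nbr {O : Ob V} {Q : Finset V} {z : V} : z ∈ nbr O Q ↔ ∃ u ∈ Q, adj O u z := by
  simp [nbr]

def MinD (O : Ob V) : Prop := ∀ v, Fintype.card V ≤ 16 * (nbr O {v}).card

def res (S : Finset V) (O : Ob V) : Ob {v // v ∉ S} := (fun a b => O.1 a b, fun a => O.2 a)

lemma Ok.res {O : Ob V} (h : Ok O) (S : Finset V) : Ok (res S O) :=
  ⟨fun _ _ => h.asym _ _, fun _ _ _ => h.p2 _ _ _, fun _ _ _ _ => h.p3 _ _ _ _,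
    fun _ _ => h.ind _ _⟩

def nb (S : Finset V) (O : Ob V) : {v // v ∉ S} → {v // v ∈ S} → Bool :=
  fun z v => decide (adj O v z)

lemma card_res (S : Finset V) : Fintype.card {v // v ∉ S} = Fintype.card V - S.card := by
  rw [Fintype.card_subtype_compl, Fintype.card_coe]

lemma deg_res {O : Ob V} (h : MinD O) (S : Finset V) (z : {v // v ∉ S}) :
    Fintype.card V ≤ 16 * ((nbr (res S O) {z}).card + S.card) := by
  refine (h z).trans (Nat.mul_le_mul_left _ ?_)
  have : nbr O {z.1} ⊆ (nbr (res S O) {z}).map (Function.Embedding.subtype _) ∪ S := by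
    intro u hu
    by_cases hs : u ∈ S
    · simp [hs]
    · simp only [mem_nbr, mem_singleton, exists_eq_left] at hu
      refine mem_union_left _ (mem_map.2 ⟨⟨u, hs⟩, ?_, rfl⟩)
      simp only [mem_nbr, mem_singleton, exists_eq_left]; exact hu
  exact (card_le_card this).trans ((card_union_le _ _).trans (by simp))

lemma exZ {W : Type} [Fintype W] [DecidableEq W] (ρ : Ob W) (A : Finset W) (n : ℕ) (hn : 0 < n)
    (hW : Fintype.card W ≤ n) (hd : ∀ z, n ≤ 32 * (nbr ρ {z}).card) :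
    ∃ Z ⊆ A, Z.card ≤ 32 ∧ ∀ z ∈ A, ∃ z' ∈ Z, ∃ u, adj ρ z u ∧ adj ρ z' u := by
  obtain ⟨Z, hZ, hmax⟩ := exists_max_image (A.powerset.filter (fun Z : Finset W =>
    ∀ a ∈ Z, ∀ b ∈ Z, a ≠ b → ∀ u, adj ρ a u → ¬ adj ρ b u)) card ⟨∅, by simp⟩
  simp only [mem_filter, mem_powerset] at hZ hmax
  refine ⟨Z, hZ.1, ?_, fun z hz => ?_⟩
  · have h1 : (Z.biUnion (fun z => nbr ρ {z})).card = ∑ z ∈ Z, (nbr ρ {z}).card :=
      card_biUnion (fun a ha b hb hab => disjoint_left.2 (fun u h1 h2 => by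
        simp only [mem_nbr, mem_singleton, exists_eq_left] at h1 h2
        exact hZ.2 a ha b hb hab u h1 h2))
    have h2 := card_le_univ (Z.biUnion (fun z => nbr ρ {z}))
    have h3 : Z.card • n ≤ ∑ z ∈ Z, 32 * (nbr ρ {z}).card := card_nsmul_le_sum _ _ _ (fun z _ => hd z)
    rw [← mul_sum, smul_eq_mul] at h3
    nlinarith
  · by_cases hzZ : z ∈ Z
    · obtain ⟨u, hu⟩ : (nbr ρ {z}).Nonempty := card_pos.1 (by have := hd z; omega)
      simp only [mem_nbr, mem_singleton, exists_eq_left] at hu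
      exact ⟨z, hzZ, u, hu, hu⟩
    by_contra hh
    push Not at hh
    have := hmax (insert z Z) ⟨insert_subset hz hZ.1, fun a ha b hb hab u h1 h2 => by
      rcases mem_insert.1 ha with rfl | ha' <;> rcases mem_insert.1 hb with rfl | hb'
      · exact hab rfl
      · exact hh b hb' u h1 h2
      · exact hh a ha' u h2 h1
      · exact hZ.2 a ha' b hb' hab u h1 h2⟩
    rw [card_insert_of_notMem hzZ] at this
    omega

lemma fiber (S : Finset V) (hn : 0 < Fintype.card V) (hS : 32 * S.card ≤ Fintype.card V)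
    (ρ : Ob {v // v ∉ S}) (ψ : {v // v ∉ S} → {v // v ∈ S} → Bool) :
    cnt (fun O : Ob V => (Ok O ∧ MinD O) ∧ res S O = ρ ∧ nb S O = ψ) ≤
      2 ^ (S.card * (33 + S.card)) := by
  by_cases hne : ∃ O : Ob V, (Ok O ∧ MinD O) ∧ res S O = ρ ∧ nb S O = ψ
  swap
  · rw [cnt_false (fun O hO => hne ⟨O, hO⟩)]; positivity
  obtain ⟨O0, ⟨-, h0⟩, rfl, -⟩ := hne
  have hd : ∀ z, Fintype.card V ≤ 32 * (nbr (res S O0) {z}).card := fun z => by
    have := deg_res h0 S z; omega
  choose Z hZ1 hZ2 hZ3 using fun v : {v // v ∈ S} => exZ (res S O0)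
    (univ.filter (fun z => ψ z v = true)) _ hn (by rw [card_res]; omega) hd
  refine (cnt_inj (r := fun _ : (v : {v // v ∈ S}) →
      (({z // z ∈ Z v} → Bool) × Bool × ({v // v ∈ S} → Bool)) => True)
    (fun O v => (fun z => O.1 v z.1, O.2 v, fun w => O.1 v w)) (fun _ _ => trivial) ?_).trans ?_
  · rintro O O' ⟨⟨k, -⟩, e1, e2⟩ ⟨⟨k', -⟩, e1', e2'⟩ h
    have r1 : ∀ a b : {v // v ∉ S}, O.1 a b = O'.1 a b := fun a b =>
      congrFun (congrFun (congrArg Prod.fst (e1.trans e1'.symm)) a) b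
    have r0 : ∀ a b : {v // v ∉ S}, O.1 a b = O0.1 a b := fun a b =>
      congrFun (congrFun (congrArg Prod.fst e1) a) b
    have r2 : ∀ a : {v // v ∉ S}, O.2 a = O'.2 a := fun a =>
      congrFun (congrArg Prod.snd (e1.trans e1'.symm)) a
    have r3 : ∀ (v : {v // v ∈ S}) (z : {v // v ∉ S}), adj O v z ↔ ψ z v = true := fun v z => by
      rw [← e2]; simp [nb]
    have r3' : ∀ (v : {v // v ∈ S}) (z : {v // v ∉ S}), adj O' v z ↔ ψ z v = true := fun v z => by
      rw [← e2']; simp [nb]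
    have key : ∀ (v : {v // v ∈ S}) (z : {v // v ∉ S}), O.1 v z = O'.1 v z ∧ O.1 z v = O'.1 z v := by
      intro v z
      by_cases hz : ψ z v = true
      · obtain ⟨z', hz', u, a1, a2⟩ := hZ3 v z (by simpa using hz)
        have hz2 : ψ z' v = true := by simpa using hZ1 v hz'
        have b0 : O.1 v z' = O'.1 v z' := congrFun (congrArg Prod.fst (congrFun h v)) ⟨z', hz'⟩
        have a1o : adj O u z := by unfold adj; rw [r0, r0]; exact a1.symm
        have a2o : adj O u z' := by unfold adj; rw [r0, r0]; exact a2.symm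
        have a1o' : adj O' u z := by unfold adj; rw [← r1, ← r1]; exact a1o
        have a2o' : adj O' u z' := by unfold adj; rw [← r1, ← r1]; exact a2o
        have c := k.c4 ((r3 v z).2 hz) a1o a2o ((r3 v z').2 hz2)
        have c' := k'.c4 ((r3' v z).2 hz) a1o' a2o' ((r3' v z').2 hz2)
        have d := k.sg_symm ((r3 v z).2 hz)
        have d' := k'.sg_symm ((r3' v z).2 hz)
        have f1 := r1 u z
        have f2 := r1 u z'
        unfold sg at c c' d d'
        rw [b0, f1, f2] at c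
        grind
      · have a := (r3 v z).not.2 hz
        have a' := (r3' v z).not.2 hz
        unfold adj at a a'
        grind
    refine Prod.ext (funext fun a => funext fun b => ?_) (funext fun a => ?_)
    · by_cases ha : a ∈ S <;> by_cases hb : b ∈ S
      · exact congrFun (congrArg (fun t => t.2.2) (congrFun h ⟨a, ha⟩)) ⟨b, hb⟩
      · exact (key ⟨a, ha⟩ ⟨b, hb⟩).1
      · exact (key ⟨b, hb⟩ ⟨a, ha⟩).2
      · exact r1 ⟨a, ha⟩ ⟨b, hb⟩
    · by_cases ha : a ∈ S
      · exact congrArg (fun t => t.2.1) (congrFun h ⟨a, ha⟩)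
      · exact r2 ⟨a, ha⟩
  · rw [cnt_true, Fintype.card_pi]
    have : ∏ v : {v // v ∈ S}, Fintype.card
        (({z // z ∈ Z v} → Bool) × Bool × ({v // v ∈ S} → Bool)) ≤ (2 ^ (33 + S.card)) ^ S.card := by
      refine (prod_le_pow_card _ _ (2 ^ (33 + S.card)) (fun v _ => ?_)).trans (by simp)
      simp only [Fintype.card_prod, Fintype.card_fun, Fintype.card_bool, Fintype.card_coe]
      rw [← pow_succ', ← pow_add]
      exact Nat.pow_le_pow_right (by norm_num) (by have := hZ2 v; omega)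
    rw [← pow_mul, mul_comm] at this
    exact_mod_cast this

lemma rem (S : Finset V) (hn : 0 < Fintype.card V) (hS : 32 * S.card ≤ Fintype.card V)
    (p : Ob V → Prop) (hp : ∀ O, p O → Ok O ∧ MinD O) (T : ℝ)
    (h : ∀ ρ, cnt (fun ψ => ∃ O, p O ∧ res S O = ρ ∧ nb S O = ψ) ≤ T) :
    cnt p ≤ cnt (Ok (V := {v // v ∉ S})) * (T * 2 ^ (S.card * (33 + S.card))) := by
  refine cnt_union _ (fun ρ O => p O ∧ res S O = ρ) _ (fun O hO => ⟨_, (hp O hO).1.res S, hO, rfl⟩)
    (fun ρ _ => ?_)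
  refine (cnt_union (fun ψ => ∃ O, p O ∧ res S O = ρ ∧ nb S O = ψ)
    (fun ψ O => (Ok O ∧ MinD O) ∧ res S O = ρ ∧ nb S O = ψ) _
    (fun O hO => ⟨_, ⟨O, hO.1, hO.2, rfl⟩, hp O hO.1, hO.2, rfl⟩)
    (fun ψ _ => fiber S hn hS ρ ψ)).trans (mul_le_mul_of_nonneg_right (h ρ) (by positivity))

lemma cnt_prod {α β : Type} [Fintype α] [DecidableEq α] [Finite β] (p : α → β → Prop) :
    cnt (fun f : α → β => ∀ a, p a (f a)) = ∏ a, cnt (p a) := by
  classical
  have := Fintype.ofFinite β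
  simp only [cnt_eq_card]
  rw [← Nat.cast_prod, ← Fintype.card_piFinset]
  congr 2; ext f; simp

lemma cnt_w {α β : Type} [Fintype α] [DecidableEq α] [Finite β] (p : α → β → Prop) (w : α → ℝ)
    (h : ∀ a, cnt (p a) ≤ 2 ^ w a) : cnt (fun f : α → β => ∀ a, p a (f a)) ≤ 2 ^ ∑ a, w a := by
  rw [cnt_prod, Real.rpow_sum_of_pos (by norm_num)]
  exact prod_le_prod (fun a _ => cnt_nonneg _) (fun a _ => h a)

lemma small_sets (m : ℕ) : cnt (fun Q : Finset V => Q.card ≤ m) ≤ (Fintype.card V + 1) ^ m := by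
  refine (cnt_surj (p := fun _ : Fin m → Option V => True)
    (fun f => univ.filter (fun x => ∃ i, f i = some x)) (fun Q hQ => ?_)).trans
    (by rw [cnt_true]; simp)
  refine ⟨fun i => if h : i.1 < Q.card then some (Q.equivFin.symm ⟨i, h⟩).1 else none, trivial, ?_⟩
  ext x
  simp only [mem_filter, mem_univ, true_and]
  constructor
  · rintro ⟨i, hi⟩
    split_ifs at hi with h
    rw [← Option.some.inj hi]; exact (Q.equivFin.symm ⟨i, h⟩).2
  · intro hx
    refine ⟨⟨Q.equivFin ⟨x, hx⟩, lt_of_lt_of_le (Fin.is_lt _) hQ⟩, ?_⟩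
    simp

end Pool.Agent.H.MP_c00610_co
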