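import Pool.Agent.H.MP_c00610_co.M

set_option linter.unusedSectionVars false

namespace Pool.Agent.H.MP_c00610_co
open Finset Pool.Agent.H.MP_e84969_co Filter Topology

lemma tt_pos (b y : ℕ) : 0 < tt b y := by unfold tt; positivity

lemma ff_ge (n : ℕ) : (2 : ℝ) ^ (((n : ℝ) ^ 2 - 1) / 4) ≤ ff n := by
  refine le_trans ?_ (single_le_sum (f := fun k => (n.choose k : ℝ) * tt k (n - k))
    (fun _ _ => mul_nonneg (by positivity) (tt_pos _ _).le) (a := n / 2) (by simp; omega))
  have h1 : (1 : ℝ) ≤ (n.choose (n / 2) : ℝ) := by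
    exact_mod_cast Nat.choose_pos (Nat.div_le_self _ _)
  refine le_trans ?_ (le_mul_of_one_le_left (tt_pos _ _).le h1)
  refine le_trans ?_ (le_mul_of_one_le_right (by positivity) (le_add_of_le_of_nonneg
    (one_le_pow₀ (by norm_num)) (by positivity)))
  rw [← Real.rpow_natCast 2]
  refine Real.rpow_le_rpow_of_exponent_le (by norm_num) ?_
  obtain ⟨k, rfl | rfl⟩ := Nat.even_or_odd' n
  · rw [show 2 * k / 2 = k by omega, show 2 * k - k = k by omega]; push_cast; nlinarith
  · rw [show (2 * k + 1) / 2 = k by omega, show 2 * k + 1 - k = k + 1 by omega]; push_cast; nlinarith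

lemma ff_pos (n : ℕ) : 0 < ff n := lt_of_lt_of_le (by positivity) (ff_ge n)

lemma ff_succ (m : ℕ) : 2 ^ (m / 2 : ℝ) * ff m ≤ ff (m + 1) := by
  rw [ff, ff, sum_choose_succ_mul tt, ← sum_add_distrib, mul_sum]
  refine sum_le_sum (fun b hb => ?_)
  have hb' : b ≤ m := by simp at hb; omega
  obtain ⟨y, rfl⟩ := Nat.exists_eq_add_of_le hb'
  rw [show b + y + 1 - b = y + 1 by omega, show b + y - b = y by omega, ← mul_add, mul_left_comm]
  refine mul_le_mul_of_nonneg_left ?_ (by positivity)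
  have h1 : 2 ^ b * tt b y ≤ tt b (y + 1) := by
    unfold tt
    rw [← mul_assoc, ← pow_add]
    gcongr
    · norm_num
    · nlinarith
    · norm_num
    · omega
  have h2 : 2 ^ y * tt b y ≤ tt (b + 1) y := by
    unfold tt
    rw [← mul_assoc, ← pow_add]
    gcongr
    · norm_num
    · nlinarith
    · norm_num
    · omega
  have h3 : (2 : ℝ) ^ (((b + y : ℕ) : ℝ) / 2) ≤ 2 ^ b + 2 ^ y := by
    rcases le_total b y with h | h
    · refine le_add_of_nonneg_of_le (by positivity) ?_
      rw [← Real.rpow_natCast]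
      have : (b : ℝ) ≤ y := by exact_mod_cast h
      exact Real.rpow_le_rpow_of_exponent_le (by norm_num) (by push_cast; linarith)
    · refine le_add_of_le_of_nonneg ?_ (by positivity)
      rw [← Real.rpow_natCast]
      have : (y : ℝ) ≤ b := by exact_mod_cast h
      exact Real.rpow_le_rpow_of_exponent_le (by norm_num) (by push_cast; linarith)
  have := mul_le_mul_of_nonneg_right h3 (tt_pos b y).le
  linarith

lemma ff_add (m s : ℕ) : 2 ^ (s * m / 2 : ℝ) * ff m ≤ ff (m + s) := by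
  induction s with
  | zero => simp
  | succ s ih =>
    refine le_trans ?_ ((mul_le_mul_of_nonneg_left ih (by positivity)).trans (ff_succ (m + s)))
    rw [← mul_assoc, ← Real.rpow_add (by norm_num)]
    refine mul_le_mul_of_nonneg_right (Real.rpow_le_rpow_of_exponent_le (by norm_num) ?_)
      (ff_pos _).le
    have : (0 : ℝ) ≤ s := by positivity
    push_cast; linarith

lemma ff_sub {s n : ℕ} (h : s ≤ n) : 2 ^ (s * (n - s) / 2 : ℝ) * ff (n - s) ≤ ff n := by
  have := ff_add (n - s) s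
  rwa [Nat.sub_add_cancel h, Nat.cast_sub h] at this

lemma boot (a e : ℕ → ℝ) (he : Tendsto e atTop (𝓝 0))
    (h : ∀ᶠ n in atTop, ∀ C, 0 ≤ C → (∀ m < n, a m ≤ C * ff m) → a n ≤ ff n * (1 + e n + C * e n)) :
    ∃ e' : ℕ → ℝ, Tendsto e' atTop (𝓝 0) ∧ ∀ᶠ n in atTop, a n ≤ ff n * (1 + e' n) := by
  obtain ⟨N, hN⟩ := eventually_atTop.1 (h.and (he.eventually (ge_mem_nhds
    (by norm_num : (0 : ℝ) < 1 / 2))))
  set C := 3 + ∑ m ∈ range N, |a m| / ff m with hC
  have p : ∀ m, 0 ≤ |a m| / ff m := fun m => div_nonneg (abs_nonneg _) (ff_pos m).le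
  have C3 : 3 ≤ C := le_add_of_nonneg_right (sum_nonneg (fun m _ => p m))
  have key : ∀ n, a n ≤ C * ff n := by
    intro n
    induction n using Nat.strong_induction_on with
    | _ n ih =>
      rcases lt_or_ge n N with hn | hn
      · have := single_le_sum (f := fun m => |a m| / ff m) (fun m _ => p m) (mem_range.2 hn)
        rw [← div_le_iff₀ (ff_pos n)]
        have := div_le_div_of_nonneg_right (le_abs_self (a n)) (ff_pos n).le
        linarith
      · refine ((hN n hn).1 C (by linarith) ih).trans ?_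
        rw [mul_comm]
        have := (hN n hn).2
        exact mul_le_mul_of_nonneg_right (by nlinarith) (ff_pos n).le
  refine ⟨fun n => e n + C * e n, by simpa using he.add (he.const_mul C), ?_⟩
  filter_upwards [h] with n hn
  simpa [add_assoc] using hn C (by linarith) (fun m _ => key m)

lemma limEE : Tendsto EE atTop (𝓝 0) := by
  have h := (polygeo 1600 (r := (2 : ℝ) ^ (-1 / 100 : ℝ)) (by positivity)
    (Real.rpow_lt_one_of_one_lt_of_neg (by norm_num) (by norm_num))).const_mul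
    ((2 : ℝ) ^ (400000 : ℝ))
  rw [mul_zero] at h
  refine h.congr (fun n => ?_)
  rw [EE, mul_left_comm, ← Real.rpow_mul_natCast (by norm_num), ← Real.rpow_add (by norm_num)]
  congr 2; ring

lemma G_up : ∃ e : ℕ → ℝ, Tendsto e atTop (𝓝 0) ∧ ∀ᶠ n in atTop, G n ≤ ff n * (1 + e n) := by
  refine boot G (fun n => 4 * EE n) (by simpa using limEE.const_mul 4) ?_
  filter_upwards [eventually_ge_atTop 20000] with n hn C hC ih
  have e0 : 0 ≤ EE n := by unfold EE; positivity
  have k : ∀ s, 1 ≤ s → s ≤ n → HH s n ≤ C * EE n * ff n := by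
    intro s h1 h2
    rw [HH, mul_comm C, mul_assoc]
    refine mul_le_mul_of_nonneg_left ((mul_le_mul_of_nonneg_left (ih _ (by omega))
      (by positivity)).trans ?_) e0
    rw [mul_left_comm]
    exact mul_le_mul_of_nonneg_left (ff_sub h2) hC
  have := k 1 le_rfl (by omega); have := k 2 (by omega) (by omega)
  have := k 3 (by omega) (by omega); have := k 500 (by omega) (by omega)
  have := G_le hn
  have := mul_nonneg (ff_pos n).le e0
  nlinarith

variable {V : Type} [Fintype V] [DecidableEq V]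

def Idem (R : V → V → Bool) : Prop := ∀ i j, R i j = true ↔ ∃ k, R i k = true ∧ R k j = true

lemma Idem.tr {R : V → V → Bool} (h : Idem R) {a b c : V} (x : R a b = true) (y : R b c = true) :
    R a c = true := (h a c).2 ⟨b, x, y⟩

noncomputable def II (n : ℕ) : ℝ := cnt (Idem (V := Fin n))

lemma idem_le : cnt (Idem (V := V)) ≤ II (Fintype.card V) := by
  let e := (Fintype.equivFin V).symm
  refine cnt_inj (fun R a b => R (e a) (e b)) (fun R h i j => (h _ _).trans
    ⟨fun ⟨k, hk⟩ => ⟨e.symm k, by simpa using hk⟩, fun ⟨k, hk⟩ => ⟨_, hk⟩⟩) (fun R R' _ _ h => ?_)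
  funext a b
  simpa using congrFun (congrFun h (e.symm a)) (e.symm b)

def cov (R : V → V → Bool) (a b : V) : Prop :=
  a ≠ b ∧ R a b = true ∧ ¬ ∃ c, c ≠ a ∧ c ≠ b ∧ R a c = true ∧ R c b = true

instance (R : V → V → Bool) (a b : V) : Decidable (cov R a b) := by unfold cov; infer_instance

def Anti (R : V → V → Bool) : Prop := ∀ a b, R a b = true → R b a = true → a = b

lemma cov_det {R R' : V → V → Bool} (h : Idem R) (k : Anti R) (h' : Idem R')
    (e : ∀ a b, cov R a b → cov R' a b) (m : ℕ) : ∀ a b, a ≠ b → R a b = true →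
    (univ.filter (fun c => c ≠ a ∧ c ≠ b ∧ R a c = true ∧ R c b = true)).card < m →
    R' a b = true := by
  induction m with
  | zero => intro a b _ _ h; omega
  | succ m ih =>
    intro a b hab r hm
    by_cases hc : ∃ c, c ≠ a ∧ c ≠ b ∧ R a c = true ∧ R c b = true
    swap
    · exact (e a b ⟨hab, r, hc⟩).2.1
    obtain ⟨c, c1, c2, c3, c4⟩ := hc
    refine h'.tr (ih a c c1.symm c3 (lt_of_lt_of_le (card_lt_card ?_) (Nat.le_of_lt_succ hm)))
      (ih c b c2 c4 (lt_of_lt_of_le (card_lt_card ?_) (Nat.le_of_lt_succ hm)))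
    · refine (ssubset_iff_of_subset (fun z hz => ?_)).2 ⟨c, by simp [*], by simp⟩
      simp only [mem_filter, mem_univ, true_and] at hz ⊢
      exact ⟨hz.1, fun x => c2 (k _ _ c4 (x ▸ hz.2.2.2)), hz.2.2.1, h.tr hz.2.2.2 c4⟩
    · refine (ssubset_iff_of_subset (fun z hz => ?_)).2 ⟨c, by simp [*], by simp⟩
      simp only [mem_filter, mem_univ, true_and] at hz ⊢
      exact ⟨fun x => c1 (k _ _ (x ▸ hz.2.2.1) c3), hz.2.1, h.tr c3 hz.2.2.1, hz.2.2.2⟩

lemma anti_le : cnt (fun R : V → V → Bool => Idem R ∧ Anti R) ≤ cnt (Ok (V := V)) := by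
  refine cnt_inj (fun R => (fun a b => decide (cov R a b), fun a => !R a a)) ?_ ?_
  · rintro R ⟨h, k⟩
    refine ⟨fun a b x y => ?_, fun a b c x y z => ?_, fun a b c d x y z w => ?_,
      fun a b x y z => ?_⟩
    · simp only [decide_eq_true_eq] at x y
      exact x.1 (k _ _ x.2.1 y.2.1)
    · simp only [adj, decide_eq_true_eq] at x y z
      rcases z with z | z
      · exact z.2.2 ⟨b, x.1.symm, y.1, x.2.1, y.2.1⟩
      · exact y.1 (k _ _ y.2.1 (h.tr z.2.1 x.2.1))
    · simp only [adj, decide_eq_true_eq] at x y z w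
      rcases w with w | w
      · exact w.2.2 ⟨b, x.1.symm, fun e => y.1 (k _ _ y.2.1 (e ▸ z.2.1)), x.2.1, h.tr y.2.1 z.2.1⟩
      · exact x.1 (k _ _ x.2.1 (h.tr y.2.1 (h.tr z.2.1 w.2.1)))
    · simp only [decide_eq_true_eq, Bool.not_eq_true'] at x y z
      obtain ⟨c, c1, c2⟩ := (h a b).1 x.2.1
      exact x.2.2 ⟨c, fun e => by simp_all, fun e => by simp_all, c1, c2⟩
  · rintro R R' ⟨h, k⟩ ⟨h', k'⟩ e
    have e1 : ∀ a b, cov R a b ↔ cov R' a b := fun a b => by
      simpa using congrFun (congrFun (congrArg Prod.fst e) a) b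
    funext a b
    by_cases hab : a = b
    · subst hab; simpa using congrFun (congrArg Prod.snd e) a
    exact Bool.eq_iff_iff.2 ⟨fun r => cov_det h k h' (fun a b => (e1 a b).1) _ a b hab r
      (Nat.lt_succ_self _), fun r => cov_det h' k' h (fun a b => (e1 a b).2) _ a b hab r
      (Nat.lt_succ_self _)⟩

lemma nanti_le : cnt (fun R : V → V → Bool => Idem R ∧ ¬ Anti R) ≤
    (Fintype.card V : ℝ) ^ 2 * II (Fintype.card V - 1) := by
  refine (cnt_union (fun p : V × V => p.1 ≠ p.2) (fun p R => Idem R ∧ R p.1 p.2 = true ∧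
    R p.2 p.1 = true) (II (Fintype.card V - 1)) (fun R hR => ?_) ?_).trans
    (mul_le_mul_of_nonneg_right ((cnt_le_card _).trans (by simp [sq])) (cnt_nonneg _))
  · obtain ⟨h, k⟩ := hR
    simp only [Anti, not_forall] at k
    obtain ⟨a, b, x, y, z⟩ := k
    exact ⟨(a, b), z, h, x, y⟩
  rintro ⟨x, y⟩ hxy
  refine (cnt_inj (r := Idem (V := {v // v ∉ ({y} : Finset V)})) (fun R a b => R a b) ?_ ?_).trans
    (idem_le.trans (by rw [card_res]; simp))
  · rintro R ⟨h, r1, r2⟩ i j
    refine ⟨fun r => ?_, fun ⟨k, a, b⟩ => h.tr a b⟩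
    obtain ⟨k, a, b⟩ := (h _ _).1 r
    by_cases hk : k = y
    · subst hk; exact ⟨⟨x, by simpa using hxy⟩, h.tr a r2, h.tr r1 b⟩
    · exact ⟨⟨k, by simpa using hk⟩, a, b⟩
  · have key : ∀ R : V → V → Bool, Idem R → R x y = true → R y x = true → ∀ a b,
        R a b = R (if a = y then x else a) (if b = y then x else b) := by
      intro R h r1 r2 a b
      refine Bool.eq_iff_iff.2 ?_
      split_ifs with ha hb hb
      · subst ha; subst hb; exact ⟨fun _ => h.tr r1 r2, fun _ => h.tr r2 r1⟩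
      · subst ha; exact ⟨h.tr r1, h.tr r2⟩
      · subst hb; exact ⟨fun r => h.tr r r2, fun r => h.tr r r1⟩
      · rfl
    rintro R R' ⟨h, r1, r2⟩ ⟨h', r1', r2'⟩ e
    funext a b
    have m : ∀ a, (if a = y then x else a) ∉ ({y} : Finset V) := fun a => by
      split_ifs <;> simpa
    rw [key R h r1 r2, key R' h' r1' r2']
    exact congrFun (congrFun e ⟨_, m a⟩) ⟨_, m b⟩

lemma II_up : ∃ e : ℕ → ℝ, Tendsto e atTop (𝓝 0) ∧ ∀ᶠ n in atTop, II n ≤ ff n * (1 + e n) := by
  obtain ⟨e, he, h⟩ := G_up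
  have l := (polygeo 2 (r := (2 : ℝ) ^ (-1 / 2 : ℝ)) (by positivity)
    (Real.rpow_lt_one_of_one_lt_of_neg (by norm_num) (by norm_num))).const_mul 2
  refine boot II (fun n => |e n| + 2 * ((n + 1) ^ 2 * ((2 : ℝ) ^ (-1 / 2 : ℝ)) ^ n))
    (by simpa using he.abs.add l) ?_
  filter_upwards [h, eventually_ge_atTop 1] with n hn h1 C hC ih
  have a := (cnt_or (p := Idem) (fun R h => by tauto)).trans
    (add_le_add (anti_le (V := Fin n)) nanti_le)
  rw [Fintype.card_fin] at a
  have b := ff_sub h1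
  have c : ff (n - 1) ≤ 2 * ((2 : ℝ) ^ (-1 / 2 : ℝ)) ^ n * ff n := by
    refine le_trans ?_ (mul_le_mul_of_nonneg_left b (by positivity))
    rw [← mul_assoc, mul_assoc 2, ← Real.rpow_mul_natCast (by norm_num),
      ← Real.rpow_add (by norm_num), mul_comm 2, ← Real.rpow_add_one (by norm_num)]
    exact le_mul_of_one_le_left (ff_pos _).le (Real.one_le_rpow (by norm_num)
      (by push_cast; linarith))
  have d : (n : ℝ) ^ 2 * II (n - 1) ≤
      (n + 1) ^ 2 * (C * (2 * ((2 : ℝ) ^ (-1 / 2 : ℝ)) ^ n * ff n)) :=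
    mul_le_mul (by gcongr; simp) ((ih _ (by omega)).trans (mul_le_mul_of_nonneg_left c hC))
      (cnt_nonneg _) (by positivity)
  have f0 := (ff_pos n).le
  have f1 := mul_le_mul_of_nonneg_left (le_abs_self (e n)) f0
  have f2 : 0 ≤ ff n * (C * |e n|) := by positivity
  have f3 : 0 ≤ ff n * ((n + 1) ^ 2 * ((2 : ℝ) ^ (-1 / 2 : ℝ)) ^ n) := by positivity
  unfold II G at *
  nlinarith

end Pool.Agent.H.MP_c00610_co
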