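import Pool.Agent.H.MP_c00610_co.K

set_option linter.unusedSectionVars false

namespace Pool.Agent.H.MP_c00610_co
open Finset Pool.Agent.H.MP_e84969_co

variable {V : Type} [Fintype V] [DecidableEq V]

lemma ie2 {A B X : Finset V} (h1 : A ⊆ X) (h2 : B ⊆ X) :
    A.card + B.card ≤ X.card + (A ∩ B).card := by
  have := card_union_add_card_inter A B
  have := card_le_card (union_subset h1 h2)
  omega

lemma ie3 (A B C : Finset V) : A.card + B.card + C.card ≤
    Fintype.card V + (A ∩ B).card + (A ∩ C).card + (B ∩ C).card := by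
  have := card_union_add_card_inter A B
  have h := card_union_add_card_inter (A ∪ B) C
  rw [union_inter_distrib_right] at h
  have := card_union_le (A ∩ C) (B ∩ C)
  have := card_le_univ (A ∪ B ∪ C)
  omega

def Bip (X : Finset V) (O : Ob V) : Prop := ∀ a b, adj O a b → (a ∈ X ↔ b ∉ X)

lemma bip {O : Ob V} (ok : Ok O) (md : MinD O) (hB : ¬ PB O) (hC : ¬ PK 2 5 O) (hT : ¬ PK 3 48 O)
    (hn : 20000 ≤ Fintype.card V) : ∃ X : Finset V, 124 * Fintype.card V ≤ 250 * X.card ∧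
    124 * Fintype.card V ≤ 250 * Xᶜ.card ∧ Bip X O ∧
    (∀ a ∈ X, ∀ b ∈ X, ∀ c ∈ X, ∃ z, adj O a z ∧ adj O b z ∧ adj O c z) ∧
    (∀ a ∉ X, ∀ b ∉ X, ∃ z, adj O a z ∧ adj O b z) := by
  set n := Fintype.card V with hn'
  have hQ : ∀ v, ∃ Q ⊆ nbr O {v}, Q.card = 503 := fun v =>
    exists_subset_card_eq (by have := md v; omega)
  choose Q q1 q2 using hQ
  have q3 : ∀ v, ∀ u ∈ Q v, adj O v u := fun v u hu => by simpa [mem_nbr] using q1 v hu
  have big : ∀ P : Finset V, 500 ≤ P.card → 124 * n ≤ 250 * (nbr O P).card := by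
    intro P hP
    obtain ⟨P', p1, p2⟩ := exists_subset_card_eq hP
    have h1 : ¬ 250 * (nbr O P').card ≤ 124 * n := fun h => hB ⟨P', p2, h⟩
    have h2 : (nbr O P').card ≤ (nbr O P).card := card_le_card (fun z hz => by
      obtain ⟨u, a, b⟩ := mem_nbr.1 hz
      exact mem_nbr.2 ⟨u, p1 a, b⟩)
    omega
  set R : V → Finset V := fun v => nbr O (Q v) with hR
  have rb : ∀ v, 124 * n ≤ 250 * (R v).card := fun v => big _ (by rw [q2]; norm_num)
  have rn : ∀ v, ∀ z ∈ R v, ¬ adj O v z := fun v z hz => by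
    obtain ⟨u, a, b⟩ := mem_nbr.1 hz
    exact ok.tri (q3 v u a) b
  have com : ∀ (k c : ℕ) (S : Finset V), S.card = k → k ≤ 3 → ¬ PK k c O →
      c * n ≤ 100 * (univ.filter (fun z => ∀ v ∈ S, z ∈ R v)).card → ∃ z, ∀ v ∈ S, adj O v z := by
    intro k c S hS hk h hc
    by_contra hh
    push Not at hh
    refine h ⟨S, hS, fun v => Q v \ S, fun v _ => ⟨(card_le_card sdiff_subset).trans (q2 v).le,
      fun u hu => ⟨q3 v u (mem_sdiff.1 hu).1, (mem_sdiff.1 hu).2⟩, big _ ?_⟩, hh,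
      hc.trans (Nat.mul_le_mul_left _ (card_le_card (fun z hz => ?_)))⟩
    · have := le_card_sdiff S (Q v)
      rw [q2] at this; beta_reduce; omega
    · simp only [mem_filter, mem_univ, true_and] at hz ⊢
      intro v hv
      obtain ⟨u, a, b⟩ := mem_nbr.1 (hz v hv)
      exact mem_nbr.2 ⟨u, mem_sdiff.2 ⟨a, fun hu => rn u z (hz u hu) b⟩, b⟩
  have one : ∀ v, ∃ z, adj O v z := fun v => by
    obtain ⟨z, hz⟩ : (Q v).Nonempty := card_pos.1 (by rw [q2]; norm_num)
    exact ⟨z, q3 v z hz⟩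
  have pair : ∀ v w, 5 * n ≤ 100 * (R v ∩ R w).card → ∃ z, adj O v z ∧ adj O w z := by
    intro v w h
    by_cases e : v = w
    · subst e; obtain ⟨z, hz⟩ := one v; exact ⟨z, hz, hz⟩
    simpa using com 2 5 {v, w} (card_pair e) (by norm_num) hC
      (h.trans (Nat.mul_le_mul_left _ (card_le_card (fun z hz => by simpa using hz))))
  have edge : ∀ v w, adj O v w → 100 * (R v ∩ R w).card < 5 * n := by
    intro v w h
    by_contra hh
    obtain ⟨z, a, b⟩ := pair v w (not_lt.1 hh)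
    exact ok.tri h b a
  obtain ⟨v0⟩ : Nonempty V := Fintype.card_pos_iff.1 (by omega)
  obtain ⟨w0, e0⟩ := one v0
  set X := univ.filter (fun v => 5 * n ≤ 100 * (R v ∩ R v0).card) with hX
  have mX : ∀ v, v ∈ X ↔ 5 * n ≤ 100 * (R v ∩ R v0).card := by simp [hX]
  have sa : ∀ v ∉ X, ∀ w ∉ X, ∃ z, adj O v z ∧ adj O w z := by
    intro v hv w hw
    rw [mX] at hv hw
    have := ie3 (R v) (R w) (R v0)
    have := rb v; have := rb w; have := rb v0
    exact pair v w (by omega)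
  have sb : ∀ v ∈ X, 97 * n ≤ 250 * (R v ∩ R v0).card := by
    intro v hv
    obtain ⟨u, a, b⟩ := pair v v0 ((mX v).1 hv)
    have := ie3 (R v) (R v0) (R u)
    have := rb v; have := rb u; have := rb v0
    have := edge _ _ a; have := edge _ _ b
    omega
  have sc : ∀ v ∈ X, ∀ w ∈ X, ∃ z, adj O v z ∧ adj O w z := by
    intro v hv w hw
    have := ie2 (inter_subset_right : R v ∩ R v0 ⊆ R v0) (inter_subset_right : R w ∩ R v0 ⊆ R v0)
    have : (R v ∩ R v0 ∩ (R w ∩ R v0)).card ≤ (R v ∩ R w).card :=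
      card_le_card (inter_subset_inter inter_subset_left inter_subset_left)
    have := ie2 (subset_univ (R v0)) (subset_univ (R w0))
    rw [card_univ] at this
    have := edge _ _ e0
    have := sb v hv; have := sb w hw; have := rb w0
    exact pair v w (by omega)
  have bp : Bip X O := by
    intro a b h
    constructor
    · intro ha hb
      obtain ⟨z, x, y⟩ := sc a ha b hb
      exact ok.tri h y x
    · intro hb
      by_contra ha
      obtain ⟨z, x, y⟩ := sa a ha b hb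
      exact ok.tri h y x
  have sub : ∀ v, ∀ z ∈ R v, (z ∈ X ↔ v ∈ X) := by
    intro v z hz
    obtain ⟨u, a, b⟩ := mem_nbr.1 hz
    have := bp _ _ (q3 v u a); have := bp _ _ b
    tauto
  have v0X : v0 ∈ X := by rw [mX, inter_self]; have := rb v0; omega
  have w0X : w0 ∉ X := (bp _ _ e0).1 v0X
  have s1 : ∀ v ∈ X, R v ⊆ X := fun v hv z hz => (sub v z hz).2 hv
  have cY : 124 * n ≤ 250 * Xᶜ.card := (rb w0).trans (Nat.mul_le_mul_left _ (card_le_card
    (fun z hz => mem_compl.2 (fun h => w0X ((sub w0 z hz).1 h)))))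
  refine ⟨X, (rb v0).trans (Nat.mul_le_mul_left _ (card_le_card (s1 v0 v0X))), cY, bp,
    fun a ha b hb c hc => ?_, sa⟩
  by_cases e1 : a = b
  · subst e1; obtain ⟨z, x, y⟩ := sc a ha c hc; exact ⟨z, x, x, y⟩
  by_cases e2 : a = c
  · subst e2; obtain ⟨z, x, y⟩ := sc a ha b hb; exact ⟨z, x, y, x⟩
  by_cases e3 : b = c
  · subst e3; obtain ⟨z, x, y⟩ := sc a ha b hb; exact ⟨z, x, y, y⟩
  have h1 := ie2 (s1 a ha) (s1 b hb)
  have h2 := ie2 (inter_subset_left.trans (s1 a ha) : R a ∩ R b ⊆ X) (s1 c hc)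
  have h3 := card_add_card_compl X
  have := rb a; have := rb b; have := rb c
  simpa using com 3 48 {a, b, c} (card_eq_three.2 ⟨a, b, c, e1, e2, e3, rfl⟩) le_rfl hT
    (le_trans (by omega : _ ≤ 100 * (R a ∩ R b ∩ R c).card)
      (Nat.mul_le_mul_left _ (card_le_card (fun z hz => by simpa using hz))))

def Str (X X' Y' : Finset V) (τ : Bool) (O : Ob V) : Prop :=
  Ok O ∧ Bip X O ∧ (∀ x ∈ X', ∀ y ∈ Y', ¬ adj O x y) ∧
    ∀ x ∈ X, ∀ y ∉ X, adj O x y → (O.1 x y = true ↔ ((x ∈ X' ∨ y ∈ Y') ↔ τ = false))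

lemma str {O : Ob V} (ok : Ok O) (md : MinD O) (hB : ¬ PB O) (hC : ¬ PK 2 5 O) (hT : ¬ PK 3 48 O)
    (hn : 20000 ≤ Fintype.card V) : ∃ X : Finset V, 124 * Fintype.card V ≤ 250 * X.card ∧
    124 * Fintype.card V ≤ 250 * Xᶜ.card ∧ ∃ X' ⊆ X, ∃ Y' ⊆ Xᶜ, ∃ τ, Str X X' Y' τ O := by
  obtain ⟨X, c1, c2, bp, t3, t2⟩ := bip ok md hB hC hT hn
  refine ⟨X, c1, c2, ?_⟩
  obtain ⟨v0, hv0⟩ : X.Nonempty := card_pos.1 (by omega)
  have hY : Xᶜ.Nonempty := card_pos.1 (by omega)
  have hc : ∀ x, ∃ z, x ∈ X → adj O v0 z ∧ adj O x z := fun x => by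
    by_cases hx : x ∈ X
    · obtain ⟨z, a, b, -⟩ := t3 v0 hv0 x hx x hx; exact ⟨z, fun _ => ⟨a, b⟩⟩
    · exact ⟨x, fun h => absurd h hx⟩
  choose c hc using hc
  set h : V → ℤ := fun x => sg O v0 (c x) - sg O x (c x) with hh
  have H1 : ∀ x ∈ X, ∀ x' ∈ X, ∀ y, adj O x y → adj O x' y → h x + sg O x y = h x' + sg O x' y := by
    intro x hx x' hx' y a b
    obtain ⟨z, z0, z1, z2⟩ := t3 v0 hv0 x hx x' hx'
    have e1 := ok.c4 (hc x hx).1 (hc x hx).2 z1 z0
    have e2 := ok.c4 (hc x' hx').1 (hc x' hx').2 z2 z0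
    have e3 := ok.c4 a b z2 z1
    simp only [hh]; omega
  have hd : ∀ y, ∃ x, y ∉ X → x ∈ X ∧ adj O x y := fun y => by
    by_cases hy : y ∈ X
    · exact ⟨y, fun h => absurd hy h⟩
    · obtain ⟨z, a, -⟩ := t2 y hy y hy; exact ⟨z, fun _ => ⟨(bp _ _ a.symm).2 hy, a.symm⟩⟩
  choose d hd using hd
  set k : V → ℤ := fun y => h (d y) + sg O (d y) y with hk
  have H2 : ∀ x ∈ X, ∀ y ∉ X, adj O x y → k y = h x + sg O x y := fun x hx y hy a =>
    H1 _ (hd y hy).1 _ hx _ (hd y hy).2 a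
  have s1 : ∀ a b, sg O a b = 1 ∨ sg O a b = -1 := fun a b => by unfold sg; split_ifs <;> simp
  have s2 : ∀ a b, O.1 a b = true ↔ sg O a b = 1 := fun a b => by unfold sg; split_ifs <;> simp [*]
  obtain ⟨x0, hx0, m1⟩ := exists_min_image X h ⟨v0, hv0⟩
  obtain ⟨y0, hy0, m2⟩ := exists_min_image Xᶜ k hY
  have r1 : ∀ x ∈ X, h x = h x0 ∨ h x = h x0 + 2 := by
    intro x hx
    obtain ⟨z, a, b, -⟩ := t3 x hx x0 hx0 x hx
    have := H1 x hx x0 hx0 z a b
    have := m1 x hx; have := s1 x z; have := s1 x0 z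
    omega
  have r2 : ∀ y ∉ X, k y = k y0 ∨ k y = k y0 + 2 := by
    intro y hy
    obtain ⟨z, a, b⟩ := t2 y hy y0 (mem_compl.1 hy0)
    have hz := (bp _ _ a.symm).2 hy
    have := H2 z hz y hy a.symm
    have := H2 z hz y0 (mem_compl.1 hy0) b.symm
    have := m2 y (mem_compl.2 hy); have := s1 z y; have := s1 z y0
    omega
  have r3 : k y0 = h x0 + 1 ∨ k y0 = h x0 - 1 := by
    obtain ⟨a, b⟩ := hc x0 hx0
    have hz := (bp _ _ b).1 hx0
    have := H2 x0 hx0 _ hz b
    have := r2 _ hz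
    have := s1 x0 (c x0)
    obtain ⟨a', b'⟩ := hd y0 (mem_compl.1 hy0)
    have := H2 _ a' _ (mem_compl.1 hy0) b'
    have := r1 _ a'
    have := s1 (d y0) y0
    omega
  clear_value h k
  rcases r3 with r3 | r3
  · refine ⟨X.filter (fun x => h x = h x0), filter_subset _ _, Xᶜ.filter (fun y => k y = k y0 + 2),
      filter_subset _ _, false, ok, bp, fun x hx y hy a => ?_, fun x hx y hy a => ?_⟩
    · simp only [mem_filter, mem_compl] at hx hy
      have := H2 x hx.1 y hy.1 a; have := s1 x y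
      omega
    · have := H2 x hx y hy a; have := s1 x y; have := r1 x hx; have := r2 y hy
      simp only [s2, mem_filter, mem_compl, hx, hy, true_and, not_false_eq_true, iff_true]
      omega
  · refine ⟨X.filter (fun x => h x = h x0 + 2), filter_subset _ _, Xᶜ.filter (fun y => k y = k y0),
      filter_subset _ _, true, ok, bp, fun x hx y hy a => ?_, fun x hx y hy a => ?_⟩
    · simp only [mem_filter, mem_compl] at hx hy
      have := H2 x hx.1 y hy.1 a; have := s1 x y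
      omega
    · have := H2 x hx y hy a; have := s1 x y; have := r1 x hx; have := r2 y hy
      simp only [s2, mem_filter, mem_compl, hx, hy, true_and, not_false_eq_true, Bool.true_eq_false,
        iff_false]
      omega

end Pool.Agent.H.MP_c00610_co
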