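import Pool.Agent.H.MP_c00610_co.O

set_option linter.unusedSectionVars false

namespace Pool.Agent.H.MP_c00610_co
open Finset Pool.Agent.H.MP_e84969_co

variable {V : Type} [Fintype V] [DecidableEq V]

noncomputable def G (n : ℕ) : ℝ := cnt (Ok (V := Fin n))

lemma G_nonneg (n : ℕ) : 0 ≤ G n := cnt_nonneg _

lemma ok_le_G : cnt (Ok (V := V)) ≤ G (Fintype.card V) := by
  let e := (Fintype.equivFin V).symm
  refine cnt_inj (fun O => (fun a b => O.1 (e a) (e b), fun a => O.2 (e a)))
    (fun O h => ⟨fun _ _ => h.asym _ _, fun _ _ _ => h.p2 _ _ _, fun _ _ _ _ => h.p3 _ _ _ _,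
      fun _ _ => h.ind _ _⟩) (fun O O' _ _ h => ?_)
  refine Prod.ext (funext fun a => funext fun b => ?_) (funext fun a => ?_)
  · simpa using congrFun (congrFun (congrArg Prod.fst h) (e.symm a)) (e.symm b)
  · simpa using congrFun (congrArg Prod.snd h) (e.symm a)

lemma res_le_G (S : Finset V) : cnt (Ok (V := {v // v ∉ S})) ≤ G (Fintype.card V - S.card) := by
  rw [← card_res]; exact ok_le_G

lemma cnt_sp {α β : Type} [Fintype α] [DecidableEq α] [Fintype β] [DecidableEq β] (b0 : β)
    (s m c : ℝ) (hs : 0 ≤ s) (hc : 1 + (Fintype.card β - 1) * (2 : ℝ) ^ (-s) ≤ 2 ^ c) :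
    cnt (fun f : α → β => ((univ.filter (fun a => f a ≠ b0)).card : ℝ) ≤ m) ≤
      2 ^ (s * m + c * Fintype.card α) := by
  classical
  set w : β → ℝ := fun b => if b = b0 then 1 else 2 ^ (-s) with hw
  have w0 : ∀ b, 0 ≤ w b := fun b => by simp only [hw]; split_ifs <;> positivity
  have h1 : ∑ b, w b ≤ 2 ^ c := by
    refine le_trans (le_of_eq ?_) hc
    rw [← add_sum_erase _ _ (mem_univ b0), sum_congr rfl (g := fun _ => (2 : ℝ) ^ (-s))
      (fun b hb => by simp [hw, ne_of_mem_erase hb])]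
    have : 1 ≤ Fintype.card β := Fintype.card_pos_iff.2 ⟨b0⟩
    simp [hw, Nat.cast_sub this]
  have h2 : ∑ f : α → β, ∏ a, w (f a) = (∑ b, w b) ^ Fintype.card α := by
    have := prod_univ_sum (fun _ : α => (univ : Finset β)) (fun _ b => w b)
    rw [Fintype.piFinset_univ] at this
    rw [← this]; simp
  rw [cnt_eq_card, card_eq_sum_ones, Nat.cast_sum, Real.rpow_add (by norm_num),
    Real.rpow_mul_natCast (by norm_num)]
  refine le_trans ?_ (mul_le_mul_of_nonneg_left (h2.le.trans
    (pow_le_pow_left₀ (sum_nonneg (fun b _ => w0 b)) h1 _)) (by positivity))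
  rw [mul_sum]
  refine le_trans (sum_le_sum (fun f hf => ?_)) (sum_le_sum_of_subset_of_nonneg (filter_subset _ _)
    (fun f _ _ => mul_nonneg (by positivity) (prod_nonneg (fun a _ => w0 _))))
  simp only [mem_filter, mem_univ, true_and] at hf
  simp only [hw, prod_ite, prod_const_one, one_mul, prod_const, Nat.cast_one]
  rw [← Real.rpow_mul_natCast (by norm_num), ← Real.rpow_add (by norm_num)]
  refine Real.one_le_rpow (by norm_num) ?_
  have := mul_le_mul_of_nonneg_left hf hs
  simp only [ne_eq] at this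
  linarith

noncomputable def EE (n : ℕ) : ℝ := ((n : ℝ) + 1) ^ 1600 * 2 ^ (400000 - n / 100 : ℝ)

noncomputable def HH (s n : ℕ) : ℝ := EE n * (2 ^ (s * (n - s) / 2 : ℝ) * G (n - s))

lemma le_HH {s n k : ℕ} (hk : k ≤ 1600) {x : ℝ} (hx : x ≤ 400000 - n / 100 + s * (n - s) / 2) :
    ((n : ℝ) + 1) ^ k * (G (n - s) * 2 ^ x) ≤ HH s n := by
  have := G_nonneg (n - s)
  unfold HH EE
  rw [mul_assoc, ← mul_assoc (2 ^ _), ← Real.rpow_add (by norm_num), mul_comm (G _)]
  exact mul_le_mul (pow_le_pow_right₀ (by simp) hk) (mul_le_mul_of_nonneg_right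
    (Real.rpow_le_rpow_of_exponent_le (by norm_num) hx) this) (by positivity) (by positivity)

lemma clA : cnt (fun O : Ob V => Ok O ∧ ¬ MinD O) ≤ HH 1 (Fintype.card V) := by
  refine (cnt_union (fun _ : V => True)
    (fun v O => Ok O ∧ 16 * (nbr O {v}).card < Fintype.card V)
    (G (Fintype.card V - 1) * 2 ^ (1 + (5 * (Fintype.card V / 16) + 13 / 100 * Fintype.card V) : ℝ))
    (fun O hO => by
      obtain ⟨v, hv⟩ := not_forall.1 hO.2
      exact ⟨v, trivial, hO.1, not_le.1 hv⟩) (fun v _ => ?_)).trans ?_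
  swap
  · rw [cnt_true]
    have : (0 : ℝ) ≤ Fintype.card V := by positivity
    refine le_trans ?_ (le_HH (k := 1) (x := 1 + (5 * (Fintype.card V / 16) +
      13 / 100 * Fintype.card V)) (by norm_num) (by push_cast; linarith))
    exact mul_le_mul_of_nonneg_right (by simp) (mul_nonneg (G_nonneg _) (by positivity))
  refine (cnt_union (Ok (V := {z // z ∉ ({v} : Finset V)}))
    (fun ρ O => (Ok O ∧ 16 * (nbr O {v}).card < Fintype.card V) ∧ res {v} O = ρ) _
    (fun O hO => ⟨_, hO.1.res _, hO, rfl⟩) (fun ρ _ => ?_)).trans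
    (mul_le_mul_of_nonneg_right (by simpa using res_le_G {v}) (by positivity))
  refine (cnt_union (fun _ : Bool => True) (fun b O => ((Ok O ∧ 16 * (nbr O {v}).card <
    Fintype.card V) ∧ res {v} O = ρ) ∧ O.2 v = b)
    (2 ^ (5 * (Fintype.card V / 16) + 13 / 100 * Fintype.card V : ℝ))
    (fun O hO => ⟨_, trivial, hO, rfl⟩) (fun b _ => ?_)).trans
    (by rw [cnt_true, Real.rpow_add (by norm_num) 1]; simp)
  refine le_trans ?_ (cnt_sp (α := V) (false, false) 5 _ (13 / 100) (by norm_num) ?_)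
  · refine cnt_inj (fun O z => (O.1 v z, O.1 z v)) (fun O hO => ?_) ?_
    · have : univ.filter (fun z => (O.1 v z, O.1 z v) ≠ (false, false)) = nbr O {v} := by
        ext z; simp only [mem_nbr, adj, mem_filter, mem_univ, mem_singleton]; grind
      rw [this, le_div_iff₀ (by norm_num)]
      exact_mod_cast (by have := hO.1.1.2; omega : (nbr O {v}).card * 16 ≤ Fintype.card V)
    · rintro O O' ⟨⟨-, e1⟩, e2⟩ ⟨⟨-, e1'⟩, e2'⟩ h
      refine Prod.ext (funext fun a => funext fun b => ?_) (funext fun a => ?_)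
      · by_cases ha : a = v
        · subst ha; exact congrArg Prod.fst (congrFun h b)
        by_cases hb : b = v
        · subst hb; exact congrArg Prod.snd (congrFun h a)
        exact congrFun (congrFun (congrArg Prod.fst (e1.trans e1'.symm)) ⟨a, by simpa⟩) ⟨b, by simpa⟩
      · by_cases ha : a = v
        · subst ha; exact e2.trans e2'.symm
        exact congrFun (congrArg Prod.snd (e1.trans e1'.symm)) ⟨a, by simpa⟩
  · have h := MP_72200a_co.le2 (x := 35) 513 100 (by norm_num) (by decide +kernel)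
    have e : (2 : ℝ) ^ (13 / 100 : ℝ) = 2 ^ (((513 : ℕ) : ℝ) / (100 : ℕ)) * 2 ^ (-5 : ℝ) := by
      rw [← Real.rpow_add (by norm_num)]; norm_num
    have e2 : (2 : ℝ) ^ (-5 : ℝ) = 1 / 32 := by
      rw [Real.rpow_neg (by norm_num), show (5 : ℝ) = (5 : ℕ) by norm_num, Real.rpow_natCast]; norm_num
    rw [e, e2]; simp only [Fintype.card_prod, Fintype.card_bool]; push_cast at h ⊢; linarith

def PB (O : Ob V) : Prop :=
  ∃ Q : Finset V, Q.card = 500 ∧ 250 * (nbr O Q).card ≤ 124 * Fintype.card V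

lemma clB (hn : 20000 ≤ Fintype.card V) :
    cnt (fun O : Ob V => (Ok O ∧ MinD O) ∧ PB O) ≤ HH 500 (Fintype.card V) := by
  refine (cnt_union (fun Q : Finset V => Q.card = 500) (fun Q O => (Ok O ∧ MinD O) ∧
    250 * (nbr O Q).card ≤ 124 * Fintype.card V) (G (Fintype.card V - 500) *
      2 ^ (500 * (124 / 250 * Fintype.card V) + 1 * Fintype.card V + 266500 : ℝ))
    (fun O ⟨h, Q, h1, h2⟩ => ⟨Q, h1, h, h2⟩) (fun Q hQ => ?_)).trans ?_
  swap
  · refine le_trans (mul_le_mul_of_nonneg_right ((cnt_mono (fun Q hQ => hQ.le)).trans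
      (small_sets 500)) (mul_nonneg (G_nonneg _) (by positivity))) (le_HH (by norm_num) ?_)
    have : (0 : ℝ) ≤ Fintype.card V := by positivity
    push_cast; linarith
  refine (rem Q (by omega) (by omega) _ (fun O h => h.1)
    (2 ^ (500 * (124 / 250 * Fintype.card V) + 1 * Fintype.card V : ℝ)) (fun ρ => ?_)).trans ?_
  swap
  · rw [Real.rpow_add (by norm_num) _ 266500, show (266500 : ℝ) = (Q.card * (33 + Q.card) : ℕ) by
      rw [hQ]; norm_num, Real.rpow_natCast]
    exact mul_le_mul_of_nonneg_right (hQ ▸ res_le_G Q) (by positivity)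
  refine le_trans ?_ ((cnt_sp (α := {v // v ∉ Q}) (β := {v // v ∈ Q} → Bool) (fun _ => false) 500
    (124 / 250 * Fintype.card V) 1 (by norm_num) ?_).trans ?_)
  · refine cnt_mono ?_
    rintro ψ ⟨O, ⟨-, h⟩, -, rfl⟩
    have : (univ.filter (fun z => nb Q O z ≠ fun _ => false)).card ≤ (nbr O Q).card := by
      refine card_le_card_of_injOn Subtype.val (fun z hz => ?_) Subtype.val_injective.injOn
      simp only [coe_filter, mem_univ, true_and, Set.mem_ofPred_eq, ne_eq, funext_iff, not_forall,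
        nb] at hz
      obtain ⟨u, hu⟩ := hz
      exact mem_coe.2 (mem_nbr.2 ⟨u, u.2, by simpa using hu⟩)
    have h2 : (250 : ℝ) * (nbr O Q).card ≤ 124 * Fintype.card V := by exact_mod_cast h
    have h3 := (Nat.cast_le (α := ℝ)).2 this
    linarith
  · have : ((Fintype.card ({v // v ∈ Q} → Bool) : ℕ) : ℝ) * (2 : ℝ) ^ (-500 : ℝ) = 1 := by
      rw [Fintype.card_fun, Fintype.card_coe, hQ, Fintype.card_bool, Nat.cast_pow,
        ← Real.rpow_natCast, Nat.cast_ofNat, ← Real.rpow_add (by norm_num)]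
      norm_num
    have h2 : 0 < (2 : ℝ) ^ (-500 : ℝ) := by positivity
    rw [Real.rpow_one]; linarith
  · refine Real.rpow_le_rpow_of_exponent_le (by norm_num) ?_
    have : (Fintype.card {v // v ∉ Q} : ℝ) ≤ Fintype.card V := by
      exact_mod_cast Fintype.card_subtype_le _
    linarith

end Pool.Agent.H.MP_c00610_co
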